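import Pool.Agent.Work.MP_936a99_al_h7.Steer

/-!
# The base functions on `SL_n` and the two forms of the steering lemma
-/

namespace Pool.Agent.Work.MP_936a99_al_h7

open Matrix

abbrev SLn (n : ℕ) (K : Type*) [Field K] := Matrix.SpecialLinearGroup (Fin n) K

variable {n : ℕ} {K : Type*} [Field K]

/-- matrix entry of `h` -/
def coord (i j : Fin n) : SLn n K → K := fun h => (h : Matrix (Fin n) (Fin n) K) i j

/-- matrix entry of `h⁻¹` -/
def icoord (i j : Fin n) : SLn n K → K :=
  fun h => ((h⁻¹ : SLn n K) : Matrix (Fin n) (Fin n) K) i j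

open Classical in
/-- the base functions -/
noncomputable def Bs (n : ℕ) (K : Type*) [Field K] : Finset (SLn n K → K) :=
  insert 1 ((Finset.univ.image (fun x : Fin n × Fin n => coord (K := K) x.1 x.2)) ∪
    (Finset.univ.image (fun x : Fin n × Fin n => icoord (K := K) x.1 x.2)))

/-- the span of the base functions -/
noncomputable def BS (n : ℕ) (K : Type*) [Field K] : Submodule K (SLn n K → K) :=
  Submodule.span K (Bs n K : Set (SLn n K → K))

theorem card_Bs_le : (Bs n K).card ≤ 2 * n ^ 2 + 1 := by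
  classical
  unfold Bs
  refine (Finset.card_insert_le _ _).trans ?_
  have h1 := Finset.card_union_le
    (Finset.univ.image (fun x : Fin n × Fin n => coord (K := K) x.1 x.2))
    (Finset.univ.image (fun x : Fin n × Fin n => icoord (K := K) x.1 x.2))
  have h2 : (Finset.univ.image (fun x : Fin n × Fin n => coord (K := K) x.1 x.2)).card ≤ n ^ 2 := by
    refine Finset.card_image_le.trans ?_
    simp [pow_two]
  have h3 : (Finset.univ.image (fun x : Fin n × Fin n => icoord (K := K) x.1 x.2)).card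
      ≤ n ^ 2 := by
    refine Finset.card_image_le.trans ?_
    simp [pow_two]
  omega

theorem one_mem_BS : (1 : SLn n K → K) ∈ BS n K := by
  classical
  apply Submodule.subset_span
  simp [Bs]

theorem coord_mem_BS (i j : Fin n) : coord (K := K) i j ∈ BS n K := by
  classical
  apply Submodule.subset_span
  simp only [Bs, Finset.coe_insert, Finset.coe_union, Finset.coe_image]
  right; left
  exact ⟨(i, j), by simp, rfl⟩

theorem icoord_mem_BS (i j : Fin n) : icoord (K := K) i j ∈ BS n K := by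
  classical
  apply Submodule.subset_span
  simp only [Bs, Finset.coe_insert, Finset.coe_union, Finset.coe_image]
  right; right
  exact ⟨(i, j), by simp, rfl⟩

theorem const_mem_BS (c : K) : (fun _ => c : SLn n K → K) ∈ BS n K := by
  have := (BS n K).smul_mem c one_mem_BS
  convert this using 1
  funext h
  simp

theorem BS_lInv : LInv (BS n K) := by
  intro a f hf
  unfold BS at hf
  induction hf using Submodule.span_induction with
  | mem x hx =>
    classical
    simp only [Bs, Finset.coe_insert, Finset.coe_union, Finset.coe_image, Set.mem_insert_iff,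
      Set.mem_union, Set.mem_image] at hx
    rcases hx with rfl | ⟨⟨i, j⟩, -, rfl⟩ | ⟨⟨i, j⟩, -, rfl⟩
    · exact one_mem_BS
    · have h1 : lt K a (coord i j) = ∑ l, (a : Matrix (Fin n) (Fin n) K) i l • coord l j := by
        funext h
        simp [lt_apply, coord, Matrix.SpecialLinearGroup.coe_mul, Matrix.mul_apply]
      rw [h1]
      exact Submodule.sum_mem _ fun l _ => Submodule.smul_mem _ _ (coord_mem_BS l j)
    · have h1 : lt K a (icoord i j)
          = ∑ l, ((a⁻¹ : SLn n K) : Matrix (Fin n) (Fin n) K) l j • icoord i l := by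
        funext h
        simp only [lt_apply, icoord, Finset.sum_apply, Pi.smul_apply, smul_eq_mul]
        rw [_root_.mul_inv_rev, Matrix.SpecialLinearGroup.coe_mul, Matrix.mul_apply]
        exact Finset.sum_congr rfl fun l _ => mul_comm _ _
      rw [h1]
      exact Submodule.sum_mem _ fun l _ => Submodule.smul_mem _ _ (icoord_mem_BS i l)
  | zero => rw [map_zero]; exact Submodule.zero_mem _
  | add x y _ _ hx hy => rw [map_add]; exact Submodule.add_mem _ hx hy
  | smul c x _ hx => rw [map_smul]; exact Submodule.smul_mem _ _ hx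

/-- `h ↦ y · (h u)` -/
theorem dot_mem_BS (y u : Fin n → K) :
    (fun h : SLn n K => y ⬝ᵥ ((h : Matrix (Fin n) (Fin n) K) *ᵥ u)) ∈ BS n K := by
  have h1 : (fun h : SLn n K => y ⬝ᵥ ((h : Matrix (Fin n) (Fin n) K) *ᵥ u))
      = ∑ i, ∑ j, (y i * u j) • coord (K := K) i j := by
    funext h
    simp only [dotProduct, Matrix.mulVec, Finset.sum_apply, Pi.smul_apply, smul_eq_mul, coord,
      Finset.mul_sum]
    refine Finset.sum_congr rfl fun i _ => Finset.sum_congr rfl fun j _ => by ring
  rw [h1]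
  exact Submodule.sum_mem _ fun i _ => Submodule.sum_mem _ fun j _ =>
    Submodule.smul_mem _ _ (coord_mem_BS i j)

/-- `h ↦ (f h⁻¹) · z` -/
theorem idot_mem_BS (f z : Fin n → K) :
    (fun h : SLn n K => (f ᵥ* ((h⁻¹ : SLn n K) : Matrix (Fin n) (Fin n) K)) ⬝ᵥ z) ∈ BS n K := by
  have h1 : (fun h : SLn n K => (f ᵥ* ((h⁻¹ : SLn n K) : Matrix (Fin n) (Fin n) K)) ⬝ᵥ z)
      = ∑ i, ∑ j, (f i * z j) • icoord (K := K) i j := by
    funext h
    rw [← Matrix.dotProduct_mulVec]
    simp only [dotProduct, Matrix.mulVec, Finset.sum_apply, Pi.smul_apply, smul_eq_mul, icoord,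
      Finset.mul_sum]
    refine Finset.sum_congr rfl fun i _ => Finset.sum_congr rfl fun j _ => by ring
  rw [h1]
  exact Submodule.sum_mem _ fun i _ => Submodule.sum_mem _ fun j _ =>
    Submodule.smul_mem _ _ (icoord_mem_BS i j)

theorem mem_pow_one {f : SLn n K → K} (hf : f ∈ BS n K) : f ∈ (BS n K) ^ 1 := by
  rwa [pow_one]

theorem mul_mem_pow {f g : SLn n K → K} {a b : ℕ} (hf : f ∈ (BS n K) ^ a)
    (hg : g ∈ (BS n K) ^ b) : f * g ∈ (BS n K) ^ (a + b) := by
  rw [pow_add]
  exact Submodule.mul_mem_mul hf hg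

theorem one_mem_pow (a : ℕ) : (1 : SLn n K → K) ∈ (BS n K) ^ a := by
  have := Submodule.pow_mem_pow (BS n K) one_mem_BS a
  rwa [one_pow] at this

theorem pow_mono {f : SLn n K → K} {a b : ℕ} (hf : f ∈ (BS n K) ^ a) (h : a ≤ b) :
    f ∈ (BS n K) ^ b := by
  obtain ⟨c, rfl⟩ := Nat.exists_eq_add_of_le h
  have := mul_mem_pow hf (one_mem_pow c)
  rwa [mul_one] at this

/-- **Open steering.** -/
theorem open_steer {A : Set (SLn n K)} (hA : Subgroup.closure A = ⊤) {D : ℕ}
    {f : SLn n K → K} (hf : f ∈ (BS n K) ^ D) {h : SLn n K} (hh : f h ≠ 0) :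
    ∃ w, Reach A ((2 * n ^ 2 + 1) ^ D) w ∧ f w ≠ 0 := by
  classical
  obtain ⟨w, hw, hw'⟩ := steer (K := K) hA (s := Bs n K) BS_lInv (D := D) hf hh
  exact ⟨w, hw.mono (Nat.pow_le_pow_left card_Bs_le D), hw'⟩

/-- **Closed steering** over a prime field: `k` linear conditions on `(1, h, h⁻¹)` which can be
satisfied simultaneously can be satisfied by a short word. -/
theorem closed_steer {p : ℕ} [Fact p.Prime] {A : Set (SLn n (ZMod p))}
    (hA : Subgroup.closure A = ⊤) {κ : Type*} [Fintype κ]
    (ψ : κ → (SLn n (ZMod p) → ZMod p)) (hψ : ∀ i, ψ i ∈ BS n (ZMod p))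
    {h : SLn n (ZMod p)} (hh : ∀ i, ψ i h = 0) :
    ∃ w, Reach A ((2 * n ^ 2 + 1) ^ (Fintype.card κ * (p - 1))) w ∧ ∀ i, ψ i w = 0 := by
  have hp : 2 ≤ p := (Fact.out : p.Prime).two_le
  have h1 : ∀ s : Finset κ, (∏ i ∈ s, ((1 : SLn n (ZMod p) → ZMod p) - ψ i ^ (p - 1)))
      ∈ (BS n (ZMod p)) ^ (s.card * (p - 1)) := by
    classical
    intro s
    induction s using Finset.induction_on with
    | empty => simp
    | insert a s ha ih =>
      rw [Finset.prod_insert ha, Finset.card_insert_of_notMem ha, Nat.succ_mul, Nat.add_comm]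
      refine mul_mem_pow ?_ ih
      exact Submodule.sub_mem _ (one_mem_pow _) (Submodule.pow_mem_pow _ (hψ a) _)
  have h2 := h1 Finset.univ
  obtain ⟨w, hw, hw'⟩ := open_steer hA h2 (h := h) (by
    rw [Finset.prod_apply]
    refine Finset.prod_ne_zero_iff.2 fun i _ => ?_
    simp only [Pi.sub_apply, Pi.one_apply, Pi.pow_apply, hh i]
    rw [zero_pow (by omega)]
    simp)
  refine ⟨w, by simpa using hw, fun i => ?_⟩
  rw [Finset.prod_apply] at hw'
  have h3 := Finset.prod_ne_zero_iff.1 hw' i (Finset.mem_univ i)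
  by_contra hne
  apply h3
  simp only [Pi.sub_apply, Pi.one_apply, Pi.pow_apply]
  rw [ZMod.pow_card_sub_one_eq_one hne, sub_self]

end Pool.Agent.Work.MP_936a99_al_h7
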