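import Pool.Agent.Work.MP_936a99_al_h7.Final

/-!
# Numerical bounds
-/

namespace Pool.Agent.Work.MP_936a99_al_h7

theorem main_bound {n p r ρ ℓ : ℕ} {x : ℝ} (hp2 : 2 ≤ p) (hr : 1 ≤ r) (hρ : ρ ≤ 2 * r)
    (hℓ : 1 ≤ ℓ) (hn : 4 ≤ n) (hx : (n : ℝ) ≤ 2 * x) (hx2 : 2 ≤ x) :
    ((2 * n * LT n p (4 * (2 * n ^ 2 + 1) ^ (2 * ρ ^ 2 * (p - 1)) + 4 * (2 * ℓ + 2)) : ℕ) : ℝ)
      ≤ ℓ * x ^ (300 * p * r ^ 2) := by
  have hx1 : 1 ≤ x := by linarith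
  have hx0 : 0 ≤ x := by linarith
  have hn' : (n : ℝ) ≤ x ^ 2 := by nlinarith
  have hp' : (p : ℝ) ≤ x ^ p := by
    calc (p : ℝ) ≤ 2 ^ p := by exact_mod_cast Nat.lt_two_pow_self.le
      _ ≤ x ^ p := by gcongr
  have hℓ' : (1 : ℝ) ≤ ℓ := by exact_mod_cast hℓ
  have hN : (2 * (n : ℝ) ^ 2 + 1) ≤ x ^ 6 := by
    have h4 : (4 : ℝ) ≤ n := by exact_mod_cast hn
    have h1 : (2 * (n : ℝ) ^ 2 + 1) ≤ (n : ℝ) ^ 3 := by nlinarith [sq_nonneg ((n : ℝ) - 4)]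
    calc (2 * (n : ℝ) ^ 2 + 1) ≤ (n : ℝ) ^ 3 := h1
      _ ≤ (x ^ 2) ^ 3 := by gcongr
      _ = x ^ 6 := by ring
  have hN0 : (0 : ℝ) ≤ 2 * (n : ℝ) ^ 2 + 1 := by positivity
  set E : ℕ := 48 * r ^ 2 * p with hE
  have hE1 : 96 ≤ E := by
    rw [hE]
    have : 1 ≤ r ^ 2 := Nat.one_le_pow _ _ hr
    nlinarith
  have hexp : 6 * (2 * ρ ^ 2 * (p - 1)) ≤ E := by
    rw [hE]
    have h1 : ρ ^ 2 ≤ (2 * r) ^ 2 := Nat.pow_le_pow_left hρ 2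
    have h2 : p - 1 ≤ p := Nat.sub_le _ _
    calc 6 * (2 * ρ ^ 2 * (p - 1)) ≤ 6 * (2 * (2 * r) ^ 2 * p) := by gcongr
      _ = 48 * r ^ 2 * p := by ring
  have a1 : (2 * (n : ℝ) ^ 2 + 1) ^ (2 * ρ ^ 2 * (p - 1)) ≤ x ^ E := by
    calc (2 * (n : ℝ) ^ 2 + 1) ^ (2 * ρ ^ 2 * (p - 1)) ≤ (x ^ 6) ^ (2 * ρ ^ 2 * (p - 1)) := by gcongr
      _ = x ^ (6 * (2 * ρ ^ 2 * (p - 1))) := by rw [← pow_mul]
      _ ≤ x ^ E := pow_le_pow_right₀ hx1 hexp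
  have a2 : (2 * (n : ℝ) ^ 2 + 1) ^ 5 ≤ x ^ E := by
    calc (2 * (n : ℝ) ^ 2 + 1) ^ 5 ≤ (x ^ 6) ^ 5 := by gcongr
      _ = x ^ 30 := by rw [← pow_mul]
      _ ≤ x ^ E := pow_le_pow_right₀ hx1 (by omega)
  have hxE : (1 : ℝ) ≤ x ^ E := one_le_pow₀ hx1
  -- successive bounds
  set M : ℝ := 2 * (2 * (n : ℝ) ^ 2 + 1) ^ 5
    + (4 * (2 * (n : ℝ) ^ 2 + 1) ^ (2 * ρ ^ 2 * (p - 1)) + 4 * (2 * (ℓ : ℝ) + 2)) with hM
  have hM0 : 0 ≤ M := by positivity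
  have b1 : M ≤ ℓ * x ^ (E + 5) := by
    have h1 : M ≤ 22 * (ℓ * x ^ E) := by
      have h2 : x ^ E ≤ ℓ * x ^ E := le_mul_of_one_le_left (by positivity) hℓ'
      have h3 : (ℓ : ℝ) ≤ ℓ * x ^ E := le_mul_of_one_le_right (by positivity) hxE
      rw [hM]
      linarith
    have h4 : (22 : ℝ) ≤ x ^ 5 := by
      calc (22 : ℝ) ≤ 2 ^ 5 := by norm_num
        _ ≤ x ^ 5 := by gcongr
    calc M ≤ 22 * (ℓ * x ^ E) := h1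
      _ ≤ x ^ 5 * (ℓ * x ^ E) := by gcongr
      _ = ℓ * x ^ (E + 5) := by ring
  have b2 : 2 * ((p : ℝ) * M) + M ≤ ℓ * x ^ (E + 7 + p) := by
    have h1 : (1 : ℝ) ≤ p := by exact_mod_cast (by omega : 1 ≤ p)
    have h2 : 2 * ((p : ℝ) * M) + M ≤ 4 * p * M := by nlinarith
    have h3 : (4 : ℝ) ≤ x ^ 2 := by nlinarith
    calc 2 * ((p : ℝ) * M) + M ≤ 4 * p * M := h2
      _ ≤ x ^ 2 * x ^ p * (ℓ * x ^ (E + 5)) := by gcongr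
      _ = ℓ * x ^ (E + 7 + p) := by ring
  have b3 : 2 * (n : ℝ) * (n * (p * (n * (p * (4 * (2 * ((p : ℝ) * M) + M))))))
      ≤ ℓ * x ^ (E + 16 + 3 * p) := by
    have h3 : (4 : ℝ) ≤ x ^ 2 := by nlinarith
    calc 2 * (n : ℝ) * (n * (p * (n * (p * (4 * (2 * ((p : ℝ) * M) + M))))))
        ≤ x * x ^ 2 * (x ^ 2 * (x ^ p * (x ^ 2 * (x ^ p * (x ^ 2 * (ℓ * x ^ (E + 7 + p))))))) := by
          gcongr
      _ = ℓ * x ^ (E + 16 + 3 * p) := by ring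
  have hfin : E + 16 + 3 * p ≤ 300 * p * r ^ 2 := by
    rw [hE]
    have : 1 ≤ r ^ 2 := Nat.one_le_pow _ _ hr
    nlinarith
  calc ((2 * n * LT n p (4 * (2 * n ^ 2 + 1) ^ (2 * ρ ^ 2 * (p - 1)) + 4 * (2 * ℓ + 2)) : ℕ) : ℝ)
      = 2 * (n : ℝ) * (n * (p * (n * (p * (4 * (2 * ((p : ℝ) * M) + M)))))) := by
        simp only [LT, S5, hM]
        push_cast
        ring
    _ ≤ ℓ * x ^ (E + 16 + 3 * p) := b3
    _ ≤ ℓ * x ^ (300 * p * r ^ 2) := by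
        gcongr

theorem log_three_pow : (2 : ℝ) ≤ Real.log 3 ^ 8 := by
  have h1 : (1.0939 : ℝ) ≤ Real.log 3 := by
    have h2 := Real.one_sub_inv_le_log_of_pos (x := 3 / Real.exp 1) (by positivity)
    rw [Real.log_div (by norm_num) (Real.exp_pos 1).ne', Real.log_exp, inv_div] at h2
    have h3 := Real.exp_one_lt_d9
    have h4 : Real.exp 1 / 3 ≤ 2.7182818286 / 3 := by linarith
    norm_num at h4
    linarith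
  calc (2 : ℝ) ≤ 1.0939 ^ 8 := by norm_num
    _ ≤ Real.log 3 ^ 8 := by gcongr

theorem small_bound {n p r ρ ℓ c : ℕ} {x : ℝ} (hp2 : 2 ≤ p) (hρ : ρ ≤ 2 * r)
    (hℓ : 1 ≤ ℓ) (hn : n ≤ 3 * ρ) (hx : Real.log 3 ≤ x) (hc : c ≤ p ^ (n ^ 2)) :
    (c : ℝ) ≤ ℓ * x ^ (300 * p * r ^ 2) := by
  have hx8 : (2 : ℝ) ≤ x ^ 8 := by
    refine log_three_pow.trans ?_
    gcongr
  have hx1 : 1 ≤ x := by
    by_contra hcon
    push Not at hcon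
    have h0 : 0 ≤ x := (Real.log_nonneg (by norm_num)).trans hx
    have : x ^ 8 ≤ 1 := pow_le_one₀ h0 hcon.le
    linarith
  have hℓ' : (1 : ℝ) ≤ ℓ := by exact_mod_cast hℓ
  have h1 : n ^ 2 ≤ 36 * r ^ 2 := by
    have : n ≤ 6 * r := by omega
    calc n ^ 2 ≤ (6 * r) ^ 2 := Nat.pow_le_pow_left this 2
      _ = 36 * r ^ 2 := by ring
  have h2 : c ≤ 2 ^ (36 * p * r ^ 2) := by
    calc c ≤ p ^ (n ^ 2) := hc
      _ ≤ p ^ (36 * r ^ 2) := Nat.pow_le_pow_right (by omega) h1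
      _ ≤ (2 ^ p) ^ (36 * r ^ 2) := Nat.pow_le_pow_left Nat.lt_two_pow_self.le _
      _ = 2 ^ (36 * p * r ^ 2) := by rw [← pow_mul]; ring_nf
  calc (c : ℝ) ≤ 2 ^ (36 * p * r ^ 2) := by exact_mod_cast h2
    _ ≤ (x ^ 8) ^ (36 * p * r ^ 2) := by gcongr
    _ = x ^ (288 * p * r ^ 2) := by rw [← pow_mul]; ring_nf
    _ ≤ x ^ (300 * p * r ^ 2) := pow_le_pow_right₀ hx1 (by
        have : 288 * (p * r ^ 2) ≤ 300 * (p * r ^ 2) := Nat.mul_le_mul_right _ (by norm_num)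
        calc 288 * p * r ^ 2 = 288 * (p * r ^ 2) := by ring
          _ ≤ 300 * (p * r ^ 2) := this
          _ = 300 * p * r ^ 2 := by ring)
    _ ≤ ℓ * x ^ (300 * p * r ^ 2) := le_mul_of_one_le_left (by positivity) hℓ'

end Pool.Agent.Work.MP_936a99_al_h7
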