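import Pool.Agent.Work.MP_936a99_al_h7.Trans

/-!
# From one short transvection to all transvections (length polynomial in `n` and `p`)
-/

namespace Pool.Agent.Work.MP_936a99_al_h7

open Matrix

variable {n : ℕ}

section field

variable {K : Type*} [Field K]

theorem conj_tre {A : Set (SLn n K)} {L L' : ℕ} {v k x w : Fin n → K} (h1 : TRe A L v k)
    (h2 : TRe A L' x w) (h3 : w ⬝ᵥ x = 0) :
    TRe A (2 * L' + L) (v + (w ⬝ᵥ v) • x) (k - (k ⬝ᵥ x) • w) := by
  obtain ⟨e, he1, he2⟩ := h2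
  have h4 := h1.conj he1
  rw [inv_coe_of_sq_zero he2 (vmv_sq h3), he2] at h4
  convert h4 using 1
  · rw [Matrix.add_mulVec, Matrix.one_mulVec, Matrix.vecMulVec_mulVec, op_smul_eq_smul]
  · rw [Matrix.vecMul_sub, Matrix.vecMul_one, Matrix.vecMul_vecMulVec]

theorem conj_ne_zero {k x w : Fin n → K} (h3 : w ⬝ᵥ x = 0) (hk : k ≠ 0) :
    k - (k ⬝ᵥ x) • w ≠ 0 := by
  intro h
  have h5 : k = (k ⬝ᵥ x) • w := sub_eq_zero.1 h
  have h6 : k ⬝ᵥ x = 0 := by
    conv_lhs => rw [h5]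
    rw [smul_dotProduct, h3, smul_zero]
  rw [h6, zero_smul] at h5
  exact hk h5

theorem conj_dot {v k x w : Fin n → K} (h3 : w ⬝ᵥ x = 0) (h4 : k ⬝ᵥ v = 0) :
    (k - (k ⬝ᵥ x) • w) ⬝ᵥ (v + (w ⬝ᵥ v) • x) = 0 := by
  rw [sub_dotProduct, dotProduct_add, dotProduct_add, smul_dotProduct, smul_dotProduct,
    dotProduct_smul, dotProduct_smul, h3, h4]
  simp only [smul_eq_mul]
  ring

theorem li_triple {a b c : Fin n → K}
    (h : ∀ α β γ : K, α • a + β • b + γ • c = 0 → α = 0 ∧ β = 0 ∧ γ = 0) :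
    LinearIndependent K ![a, b, c] := by
  rw [Fintype.linearIndependent_iff]
  intro g hg
  have h1 := h (g 0) (g 1) (g 2) (by simpa [Fin.sum_univ_three] using hg)
  intro i
  fin_cases i
  · exact h1.1
  · exact h1.2.1
  · exact h1.2.2

theorem li_pair {a b : Fin n → K}
    (h : ∀ α β : K, α • a + β • b = 0 → α = 0 ∧ β = 0) :
    LinearIndependent K ![a, b] := by
  rw [Fintype.linearIndependent_iff]
  intro g hg
  have h1 := h (g 0) (g 1) (by simpa [Fin.sum_univ_two] using hg)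
  intro i
  fin_cases i
  · exact h1.1
  · exact h1.2

theorem exists_dot_one {f : Fin n → K} (hf : f ≠ 0) : ∃ s, f ⬝ᵥ s = 1 := by
  obtain ⟨i, hi⟩ := Function.ne_iff.1 hf
  refine ⟨Pi.single i (f i)⁻¹, ?_⟩
  rw [dotProduct_single]
  exact mul_inv_cancel₀ hi

/-- kernel of the functional `f` -/
def kerDot (f : Fin n → K) : Submodule K (Fin n → K) where
  carrier := {x | f ⬝ᵥ x = 0}
  add_mem' := by
    intro a b ha hb
    simp only [Set.mem_ofPred_eq] at *
    rw [dotProduct_add, ha, hb, add_zero]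
  zero_mem' := by simp
  smul_mem' := by
    intro c x hx
    simp only [Set.mem_ofPred_eq] at *
    rw [dotProduct_smul, hx, smul_zero]

theorem mem_kerDot {f x : Fin n → K} : x ∈ kerDot f ↔ f ⬝ᵥ x = 0 := Iff.rfl

theorem finrank_kerDot (f : Fin n → K) : n ≤ Module.finrank K (kerDot f) + 1 := by
  let φ : (Fin n → K) →ₗ[K] K :=
    { toFun := fun x => f ⬝ᵥ x
      map_add' := fun a b => dotProduct_add _ _ _
      map_smul' := fun c x => dotProduct_smul _ _ _ }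
  have h1 : LinearMap.ker φ = kerDot f := by
    ext x
    rfl
  have h2 := LinearMap.finrank_range_add_finrank_ker φ
  rw [h1, Module.finrank_fin_fun] at h2
  have h3 : Module.finrank K (LinearMap.range φ) ≤ 1 := by
    have := Submodule.finrank_le (LinearMap.range φ)
    rwa [Module.finrank_self] at this
  omega

/-- a vector in `ker f` outside a small subspace -/
theorem exists_ker_notMem (f : Fin n → K) (T : Submodule K (Fin n → K))
    (hT : Module.finrank K T + 1 < n) : ∃ v, f ⬝ᵥ v = 0 ∧ v ∉ T := by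
  by_contra hcon
  push Not at hcon
  have h1 : kerDot f ≤ T := fun x hx => hcon x hx
  have h2 := Submodule.finrank_mono h1
  have h3 := finrank_kerDot f
  omega

/-- a vector with `f v = 1` outside a small subspace -/
theorem exists_one_notMem {f : Fin n → K} (hf : f ≠ 0) (T : Submodule K (Fin n → K))
    (hT : Module.finrank K T + 1 < n) : ∃ v, f ⬝ᵥ v = 1 ∧ v ∉ T := by
  obtain ⟨v, hv⟩ := exists_dot_one hf
  by_cases h : v ∈ T
  · obtain ⟨b, hb1, hb2⟩ := exists_ker_notMem f T hT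
    refine ⟨v + b, by rw [dotProduct_add, hv, hb1, add_zero], fun h' => hb2 ?_⟩
    have := T.sub_mem h' h
    simpa using this
  · exact ⟨v, hv, h⟩

theorem finrank_span_pair_le (a b : Fin n → K) :
    Module.finrank K (Submodule.span K ({a, b} : Set (Fin n → K))) ≤ 2 := by
  have h := finrank_range_le_card (R := K) ![a, b]
  have h1 : Set.range ![a, b] = ({a, b} : Set (Fin n → K)) := by
    ext x
    simp [eq_comm, or_comm]
  rw [Set.finrank, h1] at h
  simpa using h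

theorem finrank_span_single_le (a : Fin n → K) :
    Module.finrank K (Submodule.span K ({a} : Set (Fin n → K))) ≤ 1 := by
  have h := finrank_range_le_card (R := K) ![a]
  have h1 : Set.range ![a] = ({a} : Set (Fin n → K)) := by
    ext x
    simp [eq_comm]
  rw [Set.finrank, h1] at h
  simpa using h

/-- the image vector `h u` -/
def vv (u : Fin n → K) (h : SLn n K) : Fin n → K := (h : Matrix (Fin n) (Fin n) K) *ᵥ u

/-- the image functional `f h⁻¹` -/
def kk (f : Fin n → K) (h : SLn n K) : Fin n → K :=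
  f ᵥ* ((h⁻¹ : SLn n K) : Matrix (Fin n) (Fin n) K)

theorem kk_dot_vv (u f : Fin n → K) (h : SLn n K) : kk f h ⬝ᵥ vv u h = f ⬝ᵥ u := by
  unfold kk vv
  rw [← Matrix.dotProduct_mulVec, Matrix.mulVec_mulVec, coe_inv_mul, Matrix.one_mulVec]

theorem kk_dot {f x y : Fin n → K} {h : SLn n K} (hxy : vv x h = y) :
    kk f h ⬝ᵥ y = f ⬝ᵥ x := by
  rw [← hxy, kk_dot_vv]

theorem kk_ne_zero {f : Fin n → K} (hf : f ≠ 0) (h : SLn n K) : kk f h ≠ 0 := by
  intro h0
  obtain ⟨s, hs⟩ := exists_dot_one hf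
  have := kk_dot_vv s f h
  rw [h0, hs, zero_dotProduct] at this
  exact zero_ne_one this

theorem vv_ne_zero {u : Fin n → K} (hu : u ≠ 0) (h : SLn n K) : vv u h ≠ 0 := by
  intro h0
  apply hu
  have h1 := inv_mulVec_eq (h := h) (x := u) (y := 0) h0
  rw [Matrix.mulVec_zero] at h1
  exact h1.symm

theorem vv_mem (y u : Fin n → K) : (fun h : SLn n K => y ⬝ᵥ vv u h) ∈ BS n K := dot_mem_BS y u

theorem kk_mem (f z : Fin n → K) : (fun h : SLn n K => kk f h ⬝ᵥ z) ∈ BS n K := idot_mem_BS f z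

theorem vv_mem' (y u : Fin n → K) : (fun h : SLn n K => vv u h ⬝ᵥ y) ∈ BS n K := by
  have := dot_mem_BS (K := K) y u
  convert this using 1
  funext h
  exact dotProduct_comm _ _

end field

variable {p : ℕ} [hp : Fact p.Prime]

/-- steering length for degree five -/
def S5 (n : ℕ) : ℕ := (2 * n ^ 2 + 1) ^ 5

theorem pow_le_S5 {n D : ℕ} (hD : D ≤ 5) : (2 * n ^ 2 + 1) ^ D ≤ S5 n :=
  Nat.pow_le_pow_right (by positivity) hD

section poly

variable {K : Type*} [Field K]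

theorem mul2 {f g : SLn n K → K} (hf : f ∈ BS n K) (hg : g ∈ BS n K) :
    (fun h => f h * g h) ∈ (BS n K) ^ 2 := mul_mem_pow (mem_pow_one hf) (mem_pow_one hg)

end poly

/-- choice of two short words satisfying the open conditions of step A -/
theorem stepA_choice {K : Type*} [Field K] {A : Set (SLn n K)} (hA : Subgroup.closure A = ⊤)
    (hn : 4 ≤ n) {u f : Fin n → K} (hu : u ≠ 0) (hf : f ≠ 0) (hfu : f ⬝ᵥ u = 0)
    {v0 k0 z : Fin n → K} (hv0 : v0 ≠ 0) (hk0 : k0 ≠ 0)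
    (hz : z ∉ Submodule.span K ({v0} : Set (Fin n → K))) :
    ∃ h h' : SLn n K, Reach A (S5 n) h ∧ Reach A (S5 n) h' ∧
      kk f h ⬝ᵥ vv u h' ≠ 0 ∧ kk f h' ⬝ᵥ v0 ≠ 0 ∧
      (kk f h ⬝ᵥ z) * (kk f h' ⬝ᵥ v0) - (kk f h ⬝ᵥ v0) * (kk f h' ⬝ᵥ z) ≠ 0 ∧
      (k0 ⬝ᵥ vv u h) * (kk f h ⬝ᵥ vv u h') * (kk f h' ⬝ᵥ v0)
        + (kk f h ⬝ᵥ v0) * (kk f h' ⬝ᵥ vv u h) * (k0 ⬝ᵥ vv u h') ≠ 0 := by
  classical
  -- existence of a pair
  obtain ⟨s1, hs1, hs1'⟩ := exists_ker_notMem f (Submodule.span K ({u} : Set (Fin n → K)))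
    (by have := finrank_span_single_le (K := K) u; omega)
  obtain ⟨s2, hs2⟩ := exists_dot_one hf
  obtain ⟨v, hv1, hv2⟩ := exists_one_notMem hk0 (Submodule.span K ({v0, z} : Set (Fin n → K)))
    (by have := finrank_span_pair_le (K := K) v0 z; omega)
  have hzv : ∀ α β : K, α • v0 + β • z = 0 → α = 0 ∧ β = 0 := by
    intro α β h
    have hβ : β = 0 := by
      by_contra hβ
      apply hz
      rw [Submodule.mem_span_singleton]
      refine ⟨-(β⁻¹ * α), ?_⟩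
      have h2 : z = β⁻¹ • (β • z) := by rw [smul_smul, inv_mul_cancel₀ hβ, one_smul]
      have h3 : β • z = -(α • v0) := by
        rw [add_comm] at h
        exact eq_neg_of_add_eq_zero_left h
      rw [h2, h3, smul_neg, smul_smul, neg_smul]
    refine ⟨?_, hβ⟩
    rw [hβ, zero_smul, add_zero] at h
    exact (smul_eq_zero.1 h).resolve_right hv0
  have hx3 : LinearIndependent K ![u, s1, s2] := by
    apply li_triple
    intro α β γ h
    have h1 : γ = 0 := by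
      have := congrArg (fun x => f ⬝ᵥ x) h
      simp only [dotProduct_add, dotProduct_smul, hfu, hs1, hs2, smul_eq_mul, mul_zero, mul_one,
        zero_add, dotProduct_zero] at this
      exact this
    rw [h1, zero_smul, add_zero] at h
    have h2 : β = 0 := by
      by_contra hβ
      apply hs1'
      rw [Submodule.mem_span_singleton]
      refine ⟨-(β⁻¹ * α), ?_⟩
      have h2 : s1 = β⁻¹ • (β • s1) := by rw [smul_smul, inv_mul_cancel₀ hβ, one_smul]
      have h3 : β • s1 = -(α • u) := by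
        rw [add_comm] at h
        exact eq_neg_of_add_eq_zero_left h
      rw [h2, h3, smul_neg, smul_smul, neg_smul]
    rw [h2, zero_smul, add_zero] at h
    exact ⟨(smul_eq_zero.1 h).resolve_right hu, h2, h1⟩
  have hy3 : LinearIndependent K ![v, v0, z] := by
    apply li_triple
    intro α β γ h
    have h1 : α = 0 := by
      by_contra hα
      apply hv2
      rw [Submodule.mem_span_pair]
      refine ⟨-(α⁻¹ * β), -(α⁻¹ * γ), ?_⟩
      have h2 : v = α⁻¹ • (α • v) := by rw [smul_smul, inv_mul_cancel₀ hα, one_smul]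
      have h3 : α • v = -(β • v0 + γ • z) := by
        rw [add_assoc] at h
        exact eq_neg_of_add_eq_zero_left h
      rw [h2, h3, smul_neg, smul_add, smul_smul, smul_smul, neg_smul, neg_smul]
      abel
    rw [h1, zero_smul, zero_add] at h
    exact ⟨h1, hzv β γ h⟩
  obtain ⟨h0, hh0⟩ := exists_SL_map (by simp; omega) _ _ hx3 hy3
  have e0 : vv u h0 = v := hh0 0
  have e1 : vv s1 h0 = v0 := hh0 1
  have e2 : vv s2 h0 = z := hh0 2
  have hx2 : LinearIndependent K ![u, s2] := by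
    apply li_pair
    intro α β h
    have h1 : β = 0 := by
      have := congrArg (fun x => f ⬝ᵥ x) h
      simp only [dotProduct_add, dotProduct_smul, hfu, hs2, smul_eq_mul, mul_zero, mul_one,
        zero_add, dotProduct_zero] at this
      exact this
    rw [h1, zero_smul, add_zero] at h
    exact ⟨(smul_eq_zero.1 h).resolve_right hu, h1⟩
  have hy2 : LinearIndependent K ![z, v0] := by
    apply li_pair
    intro α β h
    have := hzv β α (by rw [add_comm]; exact h)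
    exact ⟨this.2, this.1⟩
  obtain ⟨h1, hh1⟩ := exists_SL_map (by simp; omega) _ _ hx2 hy2
  have e3 : vv u h1 = z := hh1 0
  have e4 : vv s2 h1 = v0 := hh1 1
  have k1 : kk f h0 ⬝ᵥ v0 = 0 := by rw [kk_dot e1, hs1]
  have k2 : kk f h0 ⬝ᵥ z = 1 := by rw [kk_dot e2, hs2]
  have k3 : kk f h1 ⬝ᵥ v0 = 1 := by rw [kk_dot e4, hs2]
  -- the polynomial
  let P : SLn n K → SLn n K → K := fun h h' =>
    ((kk f h ⬝ᵥ vv u h') * (kk f h' ⬝ᵥ v0)) *
      (((kk f h ⬝ᵥ z) * (kk f h' ⬝ᵥ v0) - (kk f h ⬝ᵥ v0) * (kk f h' ⬝ᵥ z)) *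
       ((k0 ⬝ᵥ vv u h) * (kk f h ⬝ᵥ vv u h') * (kk f h' ⬝ᵥ v0)
        + (kk f h ⬝ᵥ v0) * (kk f h' ⬝ᵥ vv u h) * (k0 ⬝ᵥ vv u h')))
  have hP0 : P h0 h1 ≠ 0 := by
    simp only [P, e0, e3, k1, k2, k3, hv1]
    simp
  have smulL : ∀ (c : K) (g : SLn n K → K) (m : ℕ), g ∈ (BS n K) ^ m →
      (fun h => c * g h) ∈ (BS n K) ^ m := fun c g m hg => Submodule.smul_mem _ c hg
  have smulR : ∀ (c : K) (g : SLn n K → K) (m : ℕ), g ∈ (BS n K) ^ m →
      (fun h => g h * c) ∈ (BS n K) ^ m := by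
    intro c g m hg
    have := Submodule.smul_mem _ c hg
    convert this using 1
    funext h
    simp [mul_comm]
  -- degree in the first variable
  have hP1 : ∀ h', (fun h => P h h') ∈ (BS n K) ^ 4 := by
    intro h'
    have a1 : (fun h : SLn n K => (kk f h ⬝ᵥ vv u h') * (kk f h' ⬝ᵥ v0)) ∈ (BS n K) ^ 1 :=
      smulR _ _ _ (mem_pow_one (kk_mem f _))
    have a2 : (fun h : SLn n K => (kk f h ⬝ᵥ z) * (kk f h' ⬝ᵥ v0)
        - (kk f h ⬝ᵥ v0) * (kk f h' ⬝ᵥ z)) ∈ (BS n K) ^ 1 :=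
      Submodule.sub_mem _ (smulR _ _ _ (mem_pow_one (kk_mem f _)))
        (smulR _ _ _ (mem_pow_one (kk_mem f _)))
    have a3 : (fun h : SLn n K => (k0 ⬝ᵥ vv u h) * (kk f h ⬝ᵥ vv u h') * (kk f h' ⬝ᵥ v0)
        + (kk f h ⬝ᵥ v0) * (kk f h' ⬝ᵥ vv u h) * (k0 ⬝ᵥ vv u h')) ∈ (BS n K) ^ 2 :=
      Submodule.add_mem _ (smulR _ _ _ (mul2 (vv_mem _ _) (kk_mem f _)))
        (smulR _ _ _ (mul2 (kk_mem f _) (vv_mem _ _)))
    exact mul_mem_pow a1 (mul_mem_pow a2 a3)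
  have hP2 : ∀ h, (fun h' => P h h') ∈ (BS n K) ^ 5 := by
    intro h
    have a1 : (fun h' : SLn n K => (kk f h ⬝ᵥ vv u h') * (kk f h' ⬝ᵥ v0)) ∈ (BS n K) ^ 2 :=
      mul2 (vv_mem _ _) (kk_mem f _)
    have a2 : (fun h' : SLn n K => (kk f h ⬝ᵥ z) * (kk f h' ⬝ᵥ v0)
        - (kk f h ⬝ᵥ v0) * (kk f h' ⬝ᵥ z)) ∈ (BS n K) ^ 1 :=
      Submodule.sub_mem _ (smulL _ _ _ (mem_pow_one (kk_mem f _)))
        (smulL _ _ _ (mem_pow_one (kk_mem f _)))
    have a3 : (fun h' : SLn n K => (k0 ⬝ᵥ vv u h) * (kk f h ⬝ᵥ vv u h') * (kk f h' ⬝ᵥ v0)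
        + (kk f h ⬝ᵥ v0) * (kk f h' ⬝ᵥ vv u h) * (k0 ⬝ᵥ vv u h')) ∈ (BS n K) ^ 2 := by
      refine Submodule.add_mem _ ?_ ?_
      · have := smulL (k0 ⬝ᵥ vv u h) _ 2
          (mul2 (vv_mem (kk f h) u) (kk_mem f v0))
        convert this using 1
        funext x
        simp only [mul_assoc]
      · have := smulL (kk f h ⬝ᵥ v0) _ 2
          (mul2 (kk_mem f (vv u h)) (vv_mem k0 u))
        convert this using 1
        funext x
        simp only [mul_assoc]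
    exact mul_mem_pow a1 (mul_mem_pow a2 a3)
  obtain ⟨h, hh, hPh⟩ := open_steer hA (hP1 h1) (h := h0) hP0
  obtain ⟨h', hh', hPh'⟩ := open_steer hA (hP2 h) (h := h1) hPh
  refine ⟨h, h', hh.mono (pow_le_S5 (by norm_num)), hh'.mono (pow_le_S5 le_rfl), ?_⟩
  simp only [P] at hPh'
  have b1 := left_ne_zero_of_mul hPh'
  have b2 := right_ne_zero_of_mul hPh'
  exact ⟨left_ne_zero_of_mul b1, right_ne_zero_of_mul b1, left_ne_zero_of_mul b2,
    right_ne_zero_of_mul b2⟩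

/-- Step A, one functional: for a reachable transvection `(v0, k0)` and `z` not proportional to
`v0`, there is a reachable `(v0, k)` with `k z ≠ 0`. -/
theorem stepA {A : Set (SLn n (ZMod p))} (hA : Subgroup.closure A = ⊤) (hn : 4 ≤ n)
    {u f : Fin n → ZMod p} {L0 : ℕ} (ht : TRe A L0 u f) (hu : u ≠ 0) (hf : f ≠ 0)
    (hfu : f ⬝ᵥ u = 0) {v0 k0 z : Fin n → ZMod p} {L : ℕ} (ht0 : TRe A L v0 k0)
    (hv0 : v0 ≠ 0) (hk0 : k0 ≠ 0) (hkv : k0 ⬝ᵥ v0 = 0)
    (hz : z ∉ Submodule.span (ZMod p) ({v0} : Set (Fin n → ZMod p))) :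
    ∃ k, TRe A (2 * L + 2 * (2 * (p * (2 * S5 n + L0)) + (2 * S5 n + L0))) v0 k ∧
      k ⬝ᵥ v0 = 0 ∧ k ⬝ᵥ z ≠ 0 := by
  obtain ⟨h, h', hh, hh', c1, c2, c3, c4⟩ := stepA_choice hA hn hu hf hfu hv0 hk0 hz
  set v := vv u h with hv
  set k := kk f h with hk
  set x := vv u h' with hx
  set w := kk f h' with hw
  have t1 : TRe A (2 * S5 n + L0) v k := ht.conj hh
  have t2 : TRe A (2 * S5 n + L0) x w := ht.conj hh'
  have hwx : w ⬝ᵥ x = 0 := by rw [hw, hx, kk_dot_vv, hfu]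
  have hkv' : k ⬝ᵥ v = 0 := by rw [hk, hv, kk_dot_vv, hfu]
  set s : ZMod p := (k ⬝ᵥ v0) / ((k ⬝ᵥ x) * (w ⬝ᵥ v0)) with hs
  have t3 := t2.smul hwx s
  have hswx : (s • w) ⬝ᵥ x = 0 := by rw [smul_dotProduct, hwx, smul_zero]
  have t4 := conj_tre t1 t3 hswx
  have hd := conj_dot hswx hkv'
  set v' := v + ((s • w) ⬝ᵥ v) • x with hv'
  set k' := k - (k ⬝ᵥ x) • (s • w) with hk'
  have e1 : k' ⬝ᵥ v0 = 0 := by
    rw [hk', sub_dotProduct, smul_dotProduct, smul_dotProduct, hs]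
    simp only [smul_eq_mul]
    field_simp
    ring
  have e2 : k' ⬝ᵥ z ≠ 0 := by
    have : k' ⬝ᵥ z = ((k ⬝ᵥ z) * (w ⬝ᵥ v0) - (k ⬝ᵥ v0) * (w ⬝ᵥ z)) / (w ⬝ᵥ v0) := by
      rw [hk', sub_dotProduct, smul_dotProduct, smul_dotProduct, hs]
      simp only [smul_eq_mul]
      field_simp
    rw [this]
    exact div_ne_zero c3 c2
  have e3 : k0 ⬝ᵥ v' ≠ 0 := by
    have : k0 ⬝ᵥ v' = ((k0 ⬝ᵥ v) * (k ⬝ᵥ x) * (w ⬝ᵥ v0)
        + (k ⬝ᵥ v0) * (w ⬝ᵥ v) * (k0 ⬝ᵥ x)) / ((k ⬝ᵥ x) * (w ⬝ᵥ v0)) := by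
      rw [hv', dotProduct_add, dotProduct_smul, smul_dotProduct, hs]
      simp only [smul_eq_mul]
      field_simp
    rw [this]
    exact div_ne_zero c4 (mul_ne_zero c1 c2)
  have t5 := ht0.comm t4 hkv hd e1
  refine ⟨(k0 ⬝ᵥ v') • k', t5, ?_, ?_⟩
  · rw [smul_dotProduct, e1, smul_zero]
  · rw [smul_dotProduct]
    exact mul_ne_zero e3 e2

theorem finrank_le_n {K : Type*} [Field K] (T : Submodule K (Fin n → K)) :
    Module.finrank K T ≤ n := by
  have := Submodule.finrank_le T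
  rwa [Module.finrank_fin_fun] at this

/-- Step A: all transvections with the centre `v0` -/
theorem stepA_all {A : Set (SLn n (ZMod p))} (hA : Subgroup.closure A = ⊤) (hn : 4 ≤ n)
    {u f : Fin n → ZMod p} {L0 : ℕ} (ht : TRe A L0 u f) (hu : u ≠ 0) (hf : f ≠ 0)
    (hfu : f ⬝ᵥ u = 0) {v0 k0 : Fin n → ZMod p} {L : ℕ} (ht0 : TRe A L v0 k0)
    (hv0 : v0 ≠ 0) (hk0 : k0 ≠ 0) (hkv : k0 ⬝ᵥ v0 = 0) {y : Fin n → ZMod p}
    (hy : y ⬝ᵥ v0 = 0) :
    TRe A (n * (p * (2 * L + 2 * (2 * (p * (2 * S5 n + L0)) + (2 * S5 n + L0))))) v0 y := by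
  set M := 2 * L + 2 * (2 * (p * (2 * S5 n + L0)) + (2 * S5 n + L0)) with hM
  set 𝒦 : Set (Fin n → ZMod p) := {k | TRe A M v0 k ∧ k ⬝ᵥ v0 = 0} with h𝒦
  have hmem : y ∈ Submodule.span (ZMod p) 𝒦 := by
    by_contra hcon
    obtain ⟨z, hz1, hz2⟩ := exists_sep hcon
    have hz : z ∉ Submodule.span (ZMod p) ({v0} : Set (Fin n → ZMod p)) := by
      intro hz
      rw [Submodule.mem_span_singleton] at hz
      obtain ⟨c, rfl⟩ := hz
      rw [smul_dotProduct, dotProduct_comm, hy, smul_zero] at hz1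
      exact zero_ne_one hz1
    obtain ⟨k, hk1, hk2, hk3⟩ := stepA hA hn ht hu hf hfu ht0 hv0 hk0 hkv hz
    apply hk3
    rw [dotProduct_comm]
    exact hz2 k (Submodule.subset_span ⟨hk1, hk2⟩)
  obtain ⟨c, hc1, hc2, hc3⟩ := Submodule.mem_span_set_iff_exists_finsupp_le_finrank.1 hmem
  rw [← hc3, Finsupp.sum]
  refine (TRe.sum_right (L := p * M) c.support (fun m => c m • m) ?_ ?_).mono
    (Nat.mul_le_mul_right _ (hc1.trans (finrank_le_n _)))
  · intro m hm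
    exact (hc2 hm).1.smul (hc2 hm).2 (c m)
  · intro m hm
    rw [smul_dotProduct, (hc2 hm).2, smul_zero]

/-- choice of two short words for step B -/
theorem stepB_choice {K : Type*} [Field K] {A : Set (SLn n K)} (hA : Subgroup.closure A = ⊤)
    (hn : 4 ≤ n) {u f : Fin n → K} (hu : u ≠ 0) (hf : f ≠ 0) (hfu : f ⬝ᵥ u = 0)
    {y z : Fin n → K} (hy : y ≠ 0) (hz : z ∉ Submodule.span K ({y} : Set (Fin n → K))) :
    ∃ h h' : SLn n K, Reach A (S5 n) h ∧ Reach A (S5 n) h' ∧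
      kk f h' ⬝ᵥ vv u h ≠ 0 ∧ y ⬝ᵥ vv u h' ≠ 0 ∧
      (z ⬝ᵥ vv u h) * (y ⬝ᵥ vv u h') - (y ⬝ᵥ vv u h) * (z ⬝ᵥ vv u h') ≠ 0 := by
  classical
  obtain ⟨s2, hs2⟩ := exists_dot_one hf
  obtain ⟨v, hv1, hv2⟩ := exists_sep hz
  have hzv : z ⬝ᵥ v = 1 := by rw [dotProduct_comm]; exact hv1
  have hyv : y ⬝ᵥ v = 0 := by
    rw [dotProduct_comm]; exact hv2 y (Submodule.mem_span_singleton_self y)
  have hv0 : v ≠ 0 := by
    rintro rfl
    rw [dotProduct_zero] at hzv
    exact zero_ne_one hzv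
  obtain ⟨x, hx⟩ := exists_dot_one hy
  have hx1 : LinearIndependent K ![u] := by
    rw [Fintype.linearIndependent_iff]
    intro g hg i
    fin_cases i
    have h1 : g 0 • u = 0 := by simpa using hg
    exact (smul_eq_zero.1 h1).resolve_right hu
  have hy1 : LinearIndependent K ![v] := by
    rw [Fintype.linearIndependent_iff]
    intro g hg i
    fin_cases i
    have h1 : g 0 • v = 0 := by simpa using hg
    exact (smul_eq_zero.1 h1).resolve_right hv0
  obtain ⟨h0, hh0⟩ := exists_SL_map (by simp; omega) _ _ hx1 hy1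
  have e0 : vv u h0 = v := hh0 0
  have hx2 : LinearIndependent K ![u, s2] := by
    apply li_pair
    intro α β h
    have h1 : β = 0 := by
      have := congrArg (fun x => f ⬝ᵥ x) h
      simp only [dotProduct_add, dotProduct_smul, hfu, hs2, smul_eq_mul, mul_zero, mul_one,
        zero_add, dotProduct_zero] at this
      exact this
    rw [h1, zero_smul, add_zero] at h
    exact ⟨(smul_eq_zero.1 h).resolve_right hu, h1⟩
  have hy2 : LinearIndependent K ![x, v] := by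
    apply li_pair
    intro α β h
    have h1 : α = 0 := by
      have := congrArg (fun x => y ⬝ᵥ x) h
      simp only [dotProduct_add, dotProduct_smul, hx, hyv, smul_eq_mul, mul_zero, mul_one,
        add_zero, dotProduct_zero] at this
      exact this
    rw [h1, zero_smul, zero_add] at h
    exact ⟨h1, (smul_eq_zero.1 h).resolve_right hv0⟩
  obtain ⟨h1, hh1⟩ := exists_SL_map (by simp; omega) _ _ hx2 hy2
  have e3 : vv u h1 = x := hh1 0
  have e4 : vv s2 h1 = v := hh1 1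
  have k3 : kk f h1 ⬝ᵥ v = 1 := by rw [kk_dot e4, hs2]
  let P : SLn n K → SLn n K → K := fun h h' =>
    ((kk f h' ⬝ᵥ vv u h) * (y ⬝ᵥ vv u h')) *
      ((z ⬝ᵥ vv u h) * (y ⬝ᵥ vv u h') - (y ⬝ᵥ vv u h) * (z ⬝ᵥ vv u h'))
  have hP0 : P h0 h1 ≠ 0 := by
    simp only [P, e0, e3, k3, hx, hzv, hyv]
    simp
  have smulL : ∀ (c : K) (g : SLn n K → K) (m : ℕ), g ∈ (BS n K) ^ m →
      (fun h => c * g h) ∈ (BS n K) ^ m := fun c g m hg => Submodule.smul_mem _ c hg
  have smulR : ∀ (c : K) (g : SLn n K → K) (m : ℕ), g ∈ (BS n K) ^ m →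
      (fun h => g h * c) ∈ (BS n K) ^ m := by
    intro c g m hg
    have := Submodule.smul_mem _ c hg
    convert this using 1
    funext h
    simp [mul_comm]
  have hP1 : ∀ h', (fun h => P h h') ∈ (BS n K) ^ 2 := by
    intro h'
    have a1 : (fun h : SLn n K => (kk f h' ⬝ᵥ vv u h) * (y ⬝ᵥ vv u h')) ∈ (BS n K) ^ 1 :=
      smulR _ _ _ (mem_pow_one (vv_mem _ _))
    have a2 : (fun h : SLn n K => (z ⬝ᵥ vv u h) * (y ⬝ᵥ vv u h')
        - (y ⬝ᵥ vv u h) * (z ⬝ᵥ vv u h')) ∈ (BS n K) ^ 1 :=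
      Submodule.sub_mem _ (smulR _ _ _ (mem_pow_one (vv_mem _ _)))
        (smulR _ _ _ (mem_pow_one (vv_mem _ _)))
    exact mul_mem_pow a1 a2
  have hP2 : ∀ h, (fun h' => P h h') ∈ (BS n K) ^ 3 := by
    intro h
    have a1 : (fun h' : SLn n K => (kk f h' ⬝ᵥ vv u h) * (y ⬝ᵥ vv u h')) ∈ (BS n K) ^ 2 :=
      mul2 (kk_mem _ _) (vv_mem _ _)
    have a2 : (fun h' : SLn n K => (z ⬝ᵥ vv u h) * (y ⬝ᵥ vv u h')
        - (y ⬝ᵥ vv u h) * (z ⬝ᵥ vv u h')) ∈ (BS n K) ^ 1 :=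
      Submodule.sub_mem _ (smulL _ _ _ (mem_pow_one (vv_mem _ _)))
        (smulL _ _ _ (mem_pow_one (vv_mem _ _)))
    exact mul_mem_pow a1 a2
  obtain ⟨h, hh, hPh⟩ := open_steer hA (hP1 h1) (h := h0) hP0
  obtain ⟨h', hh', hPh'⟩ := open_steer hA (hP2 h) (h := h1) hPh
  refine ⟨h, h', hh.mono (pow_le_S5 (by norm_num)), hh'.mono (pow_le_S5 (by norm_num)), ?_⟩
  simp only [P] at hPh'
  have b1 := left_ne_zero_of_mul hPh'
  have b2 := right_ne_zero_of_mul hPh'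
  exact ⟨left_ne_zero_of_mul b1, right_ne_zero_of_mul b1, b2⟩

/-- length of all transvections in terms of the length `L0` of one of them -/
def LT (n p L0 : ℕ) : ℕ := n * (p * (n * (p * (4 * (2 * (p * (2 * S5 n + L0)) + (2 * S5 n + L0))))))

/-- Step B: all transvections are short -/
theorem all_transvections {A : Set (SLn n (ZMod p))} (hA : Subgroup.closure A = ⊤) (hn : 4 ≤ n)
    {u f : Fin n → ZMod p} {L0 : ℕ} (ht : TRe A L0 u f) (hu : u ≠ 0) (hf : f ≠ 0)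
    (hfu : f ⬝ᵥ u = 0) {x0 y : Fin n → ZMod p} (hxy : y ⬝ᵥ x0 = 0) :
    TRe A (LT n p L0) x0 y := by
  by_cases hy : y = 0
  · rw [hy]; exact (tre_zero_right A x0).mono (Nat.zero_le _)
  set M := 2 * (p * (2 * S5 n + L0)) + (2 * S5 n + L0) with hM
  set 𝒰 : Set (Fin n → ZMod p) := {v | TRe A (n * (p * (4 * M))) v y ∧ y ⬝ᵥ v = 0} with h𝒰
  have hmem : x0 ∈ Submodule.span (ZMod p) 𝒰 := by
    by_contra hcon
    obtain ⟨z, hz1, hz2⟩ := exists_sep hcon
    have hz : z ∉ Submodule.span (ZMod p) ({y} : Set (Fin n → ZMod p)) := by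
      intro hz
      rw [Submodule.mem_span_singleton] at hz
      obtain ⟨c, rfl⟩ := hz
      rw [smul_dotProduct, hxy, smul_zero] at hz1
      exact zero_ne_one hz1
    obtain ⟨h, h', hh, hh', c1, c2, c3⟩ := stepB_choice hA hn hu hf hfu hy hz
    set v := vv u h with hv
    set k := kk f h with hk
    set x := vv u h' with hx
    set w := kk f h' with hw
    have t1 : TRe A (2 * S5 n + L0) v k := ht.conj hh
    have t2 : TRe A (2 * S5 n + L0) x w := ht.conj hh'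
    have hwx : w ⬝ᵥ x = 0 := by rw [hw, hx, kk_dot_vv, hfu]
    have hkv' : k ⬝ᵥ v = 0 := by rw [hk, hv, kk_dot_vv, hfu]
    set s : ZMod p := -(y ⬝ᵥ v) / ((w ⬝ᵥ v) * (y ⬝ᵥ x)) with hs
    have t3 := t2.smul hwx s
    have hswx : (s • w) ⬝ᵥ x = 0 := by rw [smul_dotProduct, hwx, smul_zero]
    have t4 := conj_tre t1 t3 hswx
    have hd := conj_dot hswx hkv'
    have hk0 := conj_ne_zero hswx (kk_ne_zero hf h)
    rw [← hk] at hk0
    set v' := v + ((s • w) ⬝ᵥ v) • x with hv'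
    set k' := k - (k ⬝ᵥ x) • (s • w) with hk'
    have e1 : y ⬝ᵥ v' = 0 := by
      rw [hv', dotProduct_add, dotProduct_smul, smul_dotProduct, hs]
      simp only [smul_eq_mul]
      field_simp
      ring
    have e2 : z ⬝ᵥ v' ≠ 0 := by
      have : z ⬝ᵥ v' = ((z ⬝ᵥ v) * (y ⬝ᵥ x) - (y ⬝ᵥ v) * (z ⬝ᵥ x)) / (y ⬝ᵥ x) := by
        rw [hv', dotProduct_add, dotProduct_smul, smul_dotProduct, hs]
        simp only [smul_eq_mul]
        field_simp
        ring
      rw [this]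
      exact div_ne_zero c3 c2
    have hv'0 : v' ≠ 0 := by
      intro h0
      rw [h0, dotProduct_zero] at e2
      exact e2 rfl
    have t5 := stepA_all hA hn ht hu hf hfu t4 hv'0 hk0 hd e1
    apply e2
    refine hz2 v' (Submodule.subset_span ⟨t5.mono (le_of_eq ?_), e1⟩)
    rw [hM]
    ring
  obtain ⟨c, hc1, hc2, hc3⟩ := Submodule.mem_span_set_iff_exists_finsupp_le_finrank.1 hmem
  rw [← hc3, Finsupp.sum]
  refine (TRe.sum_left (L := p * (n * (p * (4 * M)))) c.support (fun m => c m • m) ?_ ?_).mono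
    (Nat.mul_le_mul_right _ (hc1.trans (finrank_le_n _)))
  · intro m hm
    rw [tre_smul_comm]
    exact (hc2 hm).1.smul (hc2 hm).2 (c m)
  · intro m hm
    rw [dotProduct_smul, (hc2 hm).2, smul_zero]

end Pool.Agent.Work.MP_936a99_al_h7
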