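import Pool.Agent.Work.MP_936a99_al_h7.Rank

/-!
# Assembly: diameter bounds
-/

namespace Pool.Agent.Work.MP_936a99_al_h7

open Matrix

/-- trivial bound: words of length at most the order of the group -/
theorem reach_card {G : Type*} [Group G] [Finite G] {A : Set G} (hA : Subgroup.closure A = ⊤)
    (g : G) : Reach A (Nat.card G) g := by
  classical
  have := Fintype.ofFinite G
  have h1 : LInv (⊤ : Submodule ℚ (G → ℚ)) := fun _ _ _ => Submodule.mem_top
  obtain ⟨w, hw, hw'⟩ := steer_finrank (K := ℚ) hA h1 (f := Pi.single g 1) Submodule.mem_top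
    (h := g) (by simp)
  have h2 : w = g := by
    by_contra hne
    exact hw' (by simp [hne])
  rw [h2] at hw
  refine hw.mono ?_
  rw [finrank_top, Module.finrank_fintype_fun_eq_card, Nat.card_eq_fintype_card]

section

variable {n : ℕ} {K : Type*} [Field K]

theorem rank_add_le' (a b : Matrix (Fin n) (Fin n) K) : (a + b).rank ≤ a.rank + b.rank := by
  unfold Matrix.rank
  have h1 : LinearMap.range (a + b).mulVecLin
      ≤ LinearMap.range a.mulVecLin ⊔ LinearMap.range b.mulVecLin := by
    rintro _ ⟨x, rfl⟩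
    rw [Matrix.mulVecLin_apply, Matrix.add_mulVec]
    exact Submodule.add_mem_sup ⟨x, rfl⟩ ⟨x, rfl⟩
  exact (Submodule.finrank_mono h1).trans (Submodule.finrank_add_le_finrank_add_finrank _ _)

theorem rank_sub_le' (a b : Matrix (Fin n) (Fin n) K) : (a - b).rank ≤ a.rank + b.rank := by
  have h1 : (-b).rank ≤ b.rank := by
    have : -b = b * (-1) := by simp
    rw [this]
    exact Matrix.rank_mul_le_left _ _
  rw [sub_eq_add_neg]
  exact (rank_add_le' a (-b)).trans (Nat.add_le_add_left h1 _)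

/-- a noncommuting generator gives a commutator of small rank -/
theorem exists_small_rank {A : Set (SLn n K)} (hA : Subgroup.closure A = ⊤) {w : SLn n K} {ℓ : ℕ}
    (hw : Reach A ℓ w) {c : K} {r : ℕ}
    (hr : ((w : Matrix (Fin n) (Fin n) K) - c • 1).rank ≤ r)
    (hns : ∀ d : K, (w : Matrix (Fin n) (Fin n) K) ≠ d • 1) :
    ∃ g : SLn n K, Reach A (2 * ℓ + 2) g ∧
      1 ≤ ((g : Matrix (Fin n) (Fin n) K) - 1).rank ∧
      ((g : Matrix (Fin n) (Fin n) K) - 1).rank ≤ 2 * r := by
  obtain ⟨x, hx, hxw⟩ : ∃ x ∈ A, w * x ≠ x * w := by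
    by_contra hcon
    push Not at hcon
    have h1 : ∀ y : SLn n K, w * y = y * w := by
      intro y
      have hy : y ∈ Subgroup.closure A := by rw [hA]; trivial
      induction hy using Subgroup.closure_induction with
      | mem x hx => exact hcon x hx
      | one => simp
      | mul a b _ _ ha hb => rw [← mul_assoc, ha, mul_assoc, hb, mul_assoc]
      | inv a _ ha =>
        have : a⁻¹ * (w * a) * a⁻¹ = a⁻¹ * (a * w) * a⁻¹ := by rw [ha]
        simpa [mul_assoc] using this.symm
    have h2 : w ∈ Subgroup.center (SLn n K) := Subgroup.mem_center_iff.2 fun g => (h1 g).symm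
    obtain ⟨d, -, hd⟩ := Matrix.SpecialLinearGroup.mem_center_iff.1 h2
    apply hns d
    rw [← hd, Matrix.smul_one_eq_diagonal]
    rfl
  refine ⟨w * x * w⁻¹ * x⁻¹, ?_, ?_, ?_⟩
  · exact (((hw.mul (reach_of_mem hx)).mul hw.inv).mul (reach_of_mem hx).inv).mono (by omega)
  · rw [Nat.one_le_iff_ne_zero]
    intro h0
    have h1 : ((w * x * w⁻¹ * x⁻¹ : SLn n K) : Matrix (Fin n) (Fin n) K) - 1 = 0 := by
      set M := ((w * x * w⁻¹ * x⁻¹ : SLn n K) : Matrix (Fin n) (Fin n) K) - 1
      have h5 : LinearMap.range M.mulVecLin = ⊥ := Submodule.finrank_eq_zero.1 h0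
      rw [LinearMap.range_eq_bot] at h5
      ext i j
      have h6 := congrFun (congrArg (fun f => f (Pi.single j 1)) h5) i
      simp only [Matrix.mulVecLin_apply, Matrix.mulVec_single_one, LinearMap.zero_apply] at h6
      exact h6
    apply hxw
    have h2 : w * x * w⁻¹ * x⁻¹ = 1 := by
      apply Subtype.ext
      rw [Matrix.SpecialLinearGroup.coe_one]
      exact sub_eq_zero.1 h1
    have h3 : w * x * w⁻¹ * x⁻¹ * (x * w) = 1 * (x * w) := by rw [h2]
    simpa [mul_assoc] using h3
  · set W : Matrix (Fin n) (Fin n) K := (w : Matrix (Fin n) (Fin n) K) with hW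
    set X : Matrix (Fin n) (Fin n) K := (x : Matrix (Fin n) (Fin n) K) with hX
    set W' : Matrix (Fin n) (Fin n) K := ((w⁻¹ : SLn n K) : Matrix (Fin n) (Fin n) K) with hW'
    set X' : Matrix (Fin n) (Fin n) K := ((x⁻¹ : SLn n K) : Matrix (Fin n) (Fin n) K) with hX'
    have hWW : W * W' = 1 := coe_mul_inv w
    have hXX : X * X' = 1 := coe_mul_inv x
    have h1 : ((w * x * w⁻¹ * x⁻¹ : SLn n K) : Matrix (Fin n) (Fin n) K) - 1
        = ((W - c • 1) * X - X * (W - c • 1)) * (W' * X') := by
      simp only [Matrix.SpecialLinearGroup.coe_mul]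
      rw [← hW, ← hX, ← hW', ← hX']
      have h2 : ((W - c • 1) * X - X * (W - c • 1)) = W * X - X * W := by
        rw [Matrix.sub_mul, Matrix.mul_sub, Matrix.smul_mul, Matrix.mul_smul, Matrix.one_mul,
          Matrix.mul_one]
        abel
      rw [h2, Matrix.sub_mul]
      have h3 : X * W * (W' * X') = 1 := by
        rw [Matrix.mul_assoc, ← Matrix.mul_assoc W, hWW, Matrix.one_mul, hXX]
      rw [h3, Matrix.mul_assoc (W * X) W' X']
    rw [h1]
    refine (Matrix.rank_mul_le_left _ _).trans ((rank_sub_le' _ _).trans ?_)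
    have h4 := Matrix.rank_mul_le_left (W - c • 1) X
    have h5 := Matrix.rank_mul_le_right X (W - c • 1)
    omega

theorem two_le_of_nonscalar {w : SLn n K}
    (hns : ∀ d : K, (w : Matrix (Fin n) (Fin n) K) ≠ d • 1) : 2 ≤ n := by
  by_contra hcon
  have h1 : n = 0 ∨ n = 1 := by omega
  rcases h1 with rfl | rfl
  · exact hns 0 (Subsingleton.elim _ _)
  · apply hns ((w : Matrix (Fin 1) (Fin 1) K) 0 0)
    ext i j
    have hi : i = 0 := Subsingleton.elim _ _
    have hj : j = 0 := Subsingleton.elim _ _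
    simp [hi, hj]

end

variable {n p : ℕ} [hp : Fact p.Prime]

theorem card_le_pow : Nat.card (SLn n (ZMod p)) ≤ p ^ (n ^ 2) := by
  have h1 : Nat.card (SLn n (ZMod p)) ≤ Nat.card (Matrix (Fin n) (Fin n) (ZMod p)) :=
    Nat.card_le_card_of_injective (fun g : SLn n (ZMod p) => (g : Matrix (Fin n) (Fin n) (ZMod p)))
      Subtype.val_injective
  refine h1.trans (le_of_eq ?_)
  rw [Nat.card_eq_fintype_card]
  change Fintype.card (Fin n → Fin n → ZMod p) = _
  rw [Fintype.card_fun, Fintype.card_fun, ZMod.card, Fintype.card_fin, ← pow_mul, pow_two]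

theorem pow_le_card (hn : 2 ≤ n) : 2 ^ n ≤ Nat.card (SLn n (ZMod p)) + 1 := by
  classical
  have hp2 : 2 ≤ p := hp.out.two_le
  let e : Fin n → ZMod p := Pi.single ⟨0, by omega⟩ 1
  have he : e ≠ 0 := by
    intro h
    have := congrFun h ⟨0, by omega⟩
    simp [e] at this
  have hsurj : Function.Surjective (fun g : SLn n (ZMod p) =>
      (⟨vv e g, vv_ne_zero he g⟩ : {v : Fin n → ZMod p // v ≠ 0})) := by
    rintro ⟨v, hv⟩
    have li1 : ∀ u : Fin n → ZMod p, u ≠ 0 → LinearIndependent (ZMod p) ![u] := by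
      intro u hu
      rw [Fintype.linearIndependent_iff]
      intro g hg i
      fin_cases i
      have h1 : g 0 • u = 0 := by simpa using hg
      exact (smul_eq_zero.1 h1).resolve_right hu
    obtain ⟨h, hh⟩ := exists_SL_map (by simp; omega) ![e] ![v] (li1 e he) (li1 v hv)
    refine ⟨h, Subtype.ext ?_⟩
    exact hh 0
  have h1 := Nat.card_le_card_of_surjective _ hsurj
  have h2 : Nat.card {v : Fin n → ZMod p // v ≠ 0} + 1 = p ^ n := by
    rw [Nat.card_eq_fintype_card, Fintype.card_subtype_compl, Fintype.card_subtype_eq]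
    simp only [Fintype.card_pi, ZMod.card, Finset.prod_const, Finset.card_univ, Fintype.card_fin]
    have : 1 ≤ p ^ n := Nat.one_le_pow _ _ (by omega)
    omega
  calc 2 ^ n ≤ p ^ n := Nat.pow_le_pow_left hp2 n
    _ ≤ Nat.card (SLn n (ZMod p)) + 1 := by omega

end Pool.Agent.Work.MP_936a99_al_h7
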