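import Pool.Agent.Work.MP_936a99_al_h7.Connect

/-!
# Every element of `SL_n` is a product of at most `2n` transvections
-/

namespace Pool.Agent.Work.MP_936a99_al_h7

open Matrix

variable {n : ℕ} {K : Type*} [Field K]

theorem tre_apply {u f v : Fin n → K} {s : SLn n K}
    (hs : (s : Matrix (Fin n) (Fin n) K) = 1 + vecMulVec u f) :
    (s : Matrix (Fin n) (Fin n) K) *ᵥ v = v + (f ⬝ᵥ v) • u := by
  rw [hs, Matrix.add_mulVec, Matrix.one_mulVec, Matrix.vecMulVec_mulVec, op_smul_eq_smul]

/-- one transvection when the image vector has a good coordinate -/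
theorem fix_one {A : Set (SLn n K)} {T : ℕ}
    (hT : ∀ x y : Fin n → K, y ⬝ᵥ x = 0 → TRe A T x y) {k : Fin n} {v : Fin n → K}
    (hv : v k = 1 ∨ ∃ j, k < j ∧ v j ≠ 0) :
    ∃ s : SLn n K, Reach A T s ∧ (s : Matrix (Fin n) (Fin n) K) *ᵥ v = Pi.single k 1 ∧
      ∀ i : Fin n, i < k → (s : Matrix (Fin n) (Fin n) K) *ᵥ (Pi.single i 1) = Pi.single i 1 := by
  obtain ⟨y, hy1, hy2, hy3⟩ : ∃ y : Fin n → K, y ⬝ᵥ v = 1 ∧ y k = 1 ∧ ∀ i, i < k → y i = 0 := by
    rcases hv with hv | ⟨j, hj, hvj⟩
    · refine ⟨Pi.single k 1, by rw [single_dotProduct, hv, mul_one], by simp, fun i hi => ?_⟩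
      rw [Pi.single_apply, if_neg hi.ne]
    · refine ⟨Pi.single k 1 + Pi.single j ((1 - v k) / v j), ?_, ?_, fun i hi => ?_⟩
      · rw [add_dotProduct, single_dotProduct, single_dotProduct]
        field_simp
        ring
      · rw [Pi.add_apply, Pi.single_apply, Pi.single_apply, if_pos rfl, if_neg hj.ne, add_zero]
      · rw [Pi.add_apply, Pi.single_apply, Pi.single_apply, if_neg hi.ne,
          if_neg (hi.trans hj).ne, add_zero]
  have h0 : y ⬝ᵥ (Pi.single k 1 - v) = 0 := by
    rw [dotProduct_sub, dotProduct_single, hy1, hy2, mul_one, sub_self]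
  obtain ⟨s, hs1, hs2⟩ := hT _ _ h0
  refine ⟨s, hs1, ?_, fun i hi => ?_⟩
  · rw [tre_apply hs2, hy1, one_smul]
    abel
  · rw [tre_apply hs2, dotProduct_single, hy3 i hi, zero_mul, zero_smul, add_zero]

theorem fix_step {A : Set (SLn n K)} {T : ℕ}
    (hT : ∀ x y : Fin n → K, y ⬝ᵥ x = 0 → TRe A T x y) (k : Fin n) (g : SLn n K)
    (hg : ∀ i : Fin n, i < k → (g : Matrix (Fin n) (Fin n) K) *ᵥ (Pi.single i 1) = Pi.single i 1) :
    ∃ s : SLn n K, Reach A (2 * T) s ∧ ∀ i : Fin n, i ≤ k →
      ((s * g : SLn n K) : Matrix (Fin n) (Fin n) K) *ᵥ (Pi.single i 1) = Pi.single i 1 := by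
  set v := (g : Matrix (Fin n) (Fin n) K) *ᵥ (Pi.single k 1) with hv
  have fin : ∀ s : SLn n K, (s : Matrix (Fin n) (Fin n) K) *ᵥ v = Pi.single k 1 →
      (∀ i : Fin n, i < k → (s : Matrix (Fin n) (Fin n) K) *ᵥ (Pi.single i 1) = Pi.single i 1) →
      ∀ i : Fin n, i ≤ k →
        ((s * g : SLn n K) : Matrix (Fin n) (Fin n) K) *ᵥ (Pi.single i 1) = Pi.single i 1 := by
    intro s hs1 hs2 i hi
    rw [Matrix.SpecialLinearGroup.coe_mul, ← Matrix.mulVec_mulVec]
    rcases lt_or_eq_of_le hi with h | h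
    · rw [hg i h, hs2 i h]
    · rw [h, ← hv, hs1]
  by_cases hgood : v k = 1 ∨ ∃ j, k < j ∧ v j ≠ 0
  · obtain ⟨s, hs1, hs2, hs3⟩ := fix_one hT hgood
    exact ⟨s, hs1.mono (by omega), fin s hs2 hs3⟩
  · push Not at hgood
    obtain ⟨hvk, hvj⟩ := hgood
    by_cases hk : (k : ℕ) + 1 < n
    · -- `v k ≠ 0`
      have hvk0 : v k ≠ 0 := by
        intro h0
        have h1 : (g : Matrix (Fin n) (Fin n) K) *ᵥ v = v := by
          have h2 : v = ∑ i, v i • (Pi.single i (1 : K) : Fin n → K) := by
            funext j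
            simp [Finset.sum_apply, Pi.single_apply]
          conv_lhs => rw [h2]
          rw [Matrix.mulVec_sum]
          conv_rhs => rw [h2]
          refine Finset.sum_congr rfl fun i _ => ?_
          rw [Matrix.mulVec_smul]
          rcases lt_trichotomy i k with h | h | h
          · rw [hg i h]
          · rw [h, h0, zero_smul, zero_smul]
          · rw [hvj i h, zero_smul, zero_smul]
        have h3 : (Pi.single k (1 : K) : Fin n → K) = v := by
          have h4 := inv_mulVec_eq (h := g) (x := Pi.single k 1) (y := v) hv.symm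
          have h5 := inv_mulVec_eq (h := g) (x := v) (y := v) h1
          rw [← h4, h5]
        have h6 : v k = 1 := by rw [← h3]; simp
        exact hvk h6
      set k' : Fin n := ⟨(k : ℕ) + 1, hk⟩ with hk'
      have hkk' : k < k' := by rw [Fin.lt_def]; simp [hk']
      have h0 : (Pi.single k (v k)⁻¹ : Fin n → K) ⬝ᵥ (Pi.single k' 1) = 0 := by
        rw [single_dotProduct, Pi.single_apply, if_neg hkk'.ne, mul_zero]
      obtain ⟨s1, hs1, hs1'⟩ := hT _ _ h0
      have h1 : (s1 : Matrix (Fin n) (Fin n) K) *ᵥ v = v + Pi.single k' 1 := by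
        rw [tre_apply hs1', single_dotProduct, inv_mul_cancel₀ hvk0, one_smul]
      have h2 : (v + Pi.single k' 1 : Fin n → K) k' ≠ 0 := by
        rw [Pi.add_apply, hvj k' hkk', Pi.single_apply, if_pos rfl, zero_add]
        exact one_ne_zero
      obtain ⟨s2, hs2, hs2', hs2''⟩ := fix_one hT (v := v + Pi.single k' 1) (k := k)
        (Or.inr ⟨k', hkk', h2⟩)
      refine ⟨s2 * s1, (hs2.mul hs1).mono (by omega), ?_⟩
      apply fin
      · rw [Matrix.SpecialLinearGroup.coe_mul, ← Matrix.mulVec_mulVec, h1, hs2']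
      · intro i hi
        rw [Matrix.SpecialLinearGroup.coe_mul, ← Matrix.mulVec_mulVec, tre_apply hs1',
          dotProduct_single, Pi.single_apply, if_neg hi.ne, zero_mul, zero_smul, add_zero,
          hs2'' i hi]
    · -- last column: the determinant forces `v k = 1`
      exfalso
      apply hvk
      have hcol : ∀ i j : Fin n, j < k → (g : Matrix (Fin n) (Fin n) K) i j
          = (Pi.single j (1 : K) : Fin n → K) i := by
        intro i j hj
        have := congrFun (hg j hj) i
        rw [Matrix.mulVec_single_one] at this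
        exact this
      have hkn : ∀ i : Fin n, i ≤ k := by
        intro i
        rw [Fin.le_def]
        have := i.2
        omega
      have htri : (g : Matrix (Fin n) (Fin n) K).BlockTriangular id := by
        intro i j hij
        simp only [id_eq] at hij
        have hjk : j < k := lt_of_lt_of_le hij (hkn i)
        rw [hcol i j hjk, Pi.single_apply, if_neg hij.ne']
      have hdet := g.2
      rw [Matrix.det_of_isUpperTriangular htri] at hdet
      have hd : ∀ i : Fin n, i ≠ k → (g : Matrix (Fin n) (Fin n) K) i i = 1 := by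
        intro i hi
        rw [hcol i i (lt_of_le_of_ne (hkn i) hi), Pi.single_apply, if_pos rfl]
      rw [Finset.prod_eq_single k (fun i _ hi => hd i hi) (by simp)] at hdet
      rw [hv, Matrix.mulVec_single_one]
      exact hdet

theorem gen_by_transvections {A : Set (SLn n K)} {T : ℕ}
    (hT : ∀ x y : Fin n → K, y ⬝ᵥ x = 0 → TRe A T x y) (g : SLn n K) :
    Reach A (2 * n * T) g := by
  have key : ∀ k ≤ n, ∃ s : SLn n K, Reach A (2 * k * T) s ∧ ∀ i : Fin n, (i : ℕ) < k →
      ((s * g : SLn n K) : Matrix (Fin n) (Fin n) K) *ᵥ (Pi.single i 1) = Pi.single i 1 := by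
    intro k
    induction k with
    | zero =>
      intro _
      exact ⟨1, (reach_one A).mono (Nat.zero_le _), fun i hi => absurd hi (Nat.not_lt_zero _)⟩
    | succ k ih =>
      intro hk
      obtain ⟨s, hs1, hs2⟩ := ih (by omega)
      obtain ⟨s', hs1', hs2'⟩ := fix_step hT ⟨k, by omega⟩ (s * g) (fun i hi => hs2 i hi)
      refine ⟨s' * s, (hs1'.mul hs1).mono (le_of_eq (by ring)), fun i hi => ?_⟩
      rw [mul_assoc]
      refine hs2' i ?_
      rw [Fin.le_def]
      simpa using Nat.lt_succ_iff.1 hi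
  obtain ⟨s, hs1, hs2⟩ := key n le_rfl
  have h1 : s * g = 1 := by
    apply Matrix.SpecialLinearGroup.ext
    intro i j
    have := congrFun (hs2 j j.2) i
    rw [Matrix.mulVec_single_one] at this
    rw [Matrix.SpecialLinearGroup.coe_one, Matrix.one_apply, ← Pi.single_apply]
    exact this
  have h2 : g = s⁻¹ := eq_inv_of_mul_eq_one_right h1
  rw [h2]
  exact hs1.inv

end Pool.Agent.Work.MP_936a99_al_h7
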