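import Pool.Agent.Work.MP_936a99_al_h7.Base

/-!
# Linear algebra: separation by dot products, transitivity of `SL_n`
-/

namespace Pool.Agent.Work.MP_936a99_al_h7

open Matrix

variable {n : ℕ} {K : Type*} [Field K]

theorem det_one_add_vecMulVec (u f : Fin n → K) :
    (1 + vecMulVec u f).det = 1 + f ⬝ᵥ u := by
  rw [Matrix.vecMulVec_eq (ι := Unit)]
  exact Matrix.det_one_add_replicateCol_mul_replicateRow u f

/-- a functional as a dot product -/
theorem exists_dot (f : (Fin n → K) →ₗ[K] K) : ∃ y : Fin n → K, ∀ x, f x = y ⬝ᵥ x := by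
  refine ⟨fun i => f (Pi.single i 1), fun x => ?_⟩
  have h1 : x = ∑ i, x i • (Pi.single i (1 : K) : Fin n → K) := by
    funext j
    simp [Finset.sum_apply, Pi.single_apply]
  conv_lhs => rw [h1]
  rw [map_sum]
  simp only [map_smul, smul_eq_mul, dotProduct]
  exact Finset.sum_congr rfl fun i _ => mul_comm _ _

/-- separation of a vector from a subspace by a dot product -/
theorem exists_sep {S : Submodule K (Fin n → K)} {z : Fin n → K} (hz : z ∉ S) :
    ∃ y : Fin n → K, y ⬝ᵥ z = 1 ∧ ∀ s ∈ S, y ⬝ᵥ s = 0 := by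
  obtain ⟨f, hf, hf'⟩ := Submodule.exists_le_ker_of_notMem hz
  obtain ⟨y, hy⟩ := exists_dot f
  refine ⟨(y ⬝ᵥ z)⁻¹ • y, ?_, ?_⟩
  · rw [smul_dotProduct, smul_eq_mul]
    exact inv_mul_cancel₀ (by rw [← hy]; exact hf)
  · intro s hs
    have : f s = 0 := hf' hs
    rw [smul_dotProduct, ← hy s, this, smul_zero]

theorem exists_GL_map {V : Type*} [AddCommGroup V] [Module K V] [FiniteDimensional K V]
    {κ : Type*} [Finite κ] (x y : κ → V) (hx : LinearIndependent K x)
    (hy : LinearIndependent K y) : ∃ e : V ≃ₗ[K] V, ∀ i, e (x i) = y i := by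
  let f := hx.linearCombinationEquiv.symm ≪≫ₗ hy.linearCombinationEquiv
  obtain ⟨g, hg⟩ := Submodule.exists_linearEquiv_restrict_eq f
  refine ⟨g, fun i => ?_⟩
  have h1 := hg ⟨x i, Submodule.subset_span (Set.mem_range_self i)⟩
  rw [← h1]
  have h2 : hx.linearCombinationEquiv.symm ⟨x i, Submodule.subset_span (Set.mem_range_self i)⟩
      = Finsupp.single i 1 := by
    rw [LinearEquiv.symm_apply_eq]
    ext
    simp
  simp only [f, LinearEquiv.trans_apply, h2]
  simp

/-- `SL_n` is transitive on linearly independent families of fewer than `n` vectors. -/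
theorem exists_SL_map {κ : Type*} [Fintype κ] (hκ : Fintype.card κ < n)
    (x y : κ → (Fin n → K)) (hx : LinearIndependent K x) (hy : LinearIndependent K y) :
    ∃ h : SLn n K, ∀ i, (h : Matrix (Fin n) (Fin n) K) *ᵥ x i = y i := by
  obtain ⟨e, he⟩ := exists_GL_map x y hx hy
  set M := LinearMap.toMatrix' e.toLinearMap with hM
  have hMx : ∀ v, M *ᵥ v = e v := by
    intro v
    rw [hM, LinearMap.toMatrix'_mulVec]
    rfl
  have hdet : M.det ≠ 0 := by
    have := LinearEquiv.isUnit_det e (Pi.basisFun K (Fin n)) (Pi.basisFun K (Fin n))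
    rw [LinearMap.toMatrix_eq_toMatrix'] at this
    exact this.ne_zero
  have hspan : Submodule.span K (Set.range y) ≠ ⊤ := by
    intro h
    have h1 := finrank_range_le_card (R := K) y
    rw [Set.finrank, h, finrank_top, Module.finrank_fin_fun] at h1
    omega
  obtain ⟨v, hv⟩ : ∃ v, v ∉ Submodule.span K (Set.range y) := by
    by_contra hcon
    push Not at hcon
    exact hspan ((Submodule.eq_top_iff').2 hcon)
  obtain ⟨φ, hφ1, hφ2⟩ := exists_sep hv
  set D : Matrix (Fin n) (Fin n) K := 1 + vecMulVec ((M.det⁻¹ - 1) • v) φ with hD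
  have hDdet : D.det = M.det⁻¹ := by
    rw [hD, det_one_add_vecMulVec, dotProduct_smul, hφ1]
    simp
  refine ⟨⟨D * M, by rw [Matrix.det_mul, hDdet, inv_mul_cancel₀ hdet]⟩, fun i => ?_⟩
  change (D * M) *ᵥ x i = y i
  rw [← Matrix.mulVec_mulVec, hMx, he, hD, Matrix.add_mulVec, Matrix.one_mulVec,
    Matrix.vecMulVec_mulVec, hφ2 _ (Submodule.subset_span (Set.mem_range_self i))]
  simp

/-- existence of independent vectors in `W` modulo `U` -/
theorem exists_indep_mod {V : Type*} [AddCommGroup V] [Module K V] [FiniteDimensional K V]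
    (W U : Submodule K V) (m : ℕ) (hm : Module.finrank K U + m ≤ Module.finrank K W) :
    ∃ B : Fin m → V, (∀ j, B j ∈ W) ∧
      ∀ c : Fin m → K, (∑ j, c j • B j) ∈ U → c = 0 := by
  set q : W →ₗ[K] (V ⧸ U) := U.mkQ.comp W.subtype with hq
  have h1 : m ≤ Module.finrank K (LinearMap.range q) := by
    have h2 := LinearMap.finrank_range_add_finrank_ker q
    have h3 : Module.finrank K (LinearMap.ker q) ≤ Module.finrank K U := by
      have h5 : ∀ x : LinearMap.ker q, ((x : W) : V) ∈ U := by
        intro x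
        have h6 : q x = 0 := x.2
        have h7 : U.mkQ ((x : W) : V) = 0 := h6
        rwa [Submodule.mkQ_apply, Submodule.Quotient.mk_eq_zero] at h7
      refine LinearMap.finrank_le_finrank_of_injective
        (f := (W.subtype.comp (LinearMap.ker q).subtype).codRestrict U h5) ?_
      intro a b hab
      apply Subtype.ext
      apply Subtype.ext
      have h8 := congrArg (Subtype.val : U → V) hab
      exact h8
    omega
  obtain ⟨f, hf⟩ := exists_linearIndependent_of_le_finrank h1
  choose w hw using fun j => (f j).2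
  refine ⟨fun j => (w j : V), fun j => (w j).2, fun c hc => ?_⟩
  have h2 : q (∑ j, c j • w j) = 0 := by
    change U.mkQ ((∑ j, c j • w j : W) : V) = 0
    rw [Submodule.mkQ_apply, Submodule.Quotient.mk_eq_zero]
    simpa using hc
  have h3 : ∑ j, c j • f j = 0 := by
    apply Subtype.ext
    rw [map_sum] at h2
    simpa [hw] using h2
  funext j
  exact Fintype.linearIndependent_iff.1 hf c h3 j

end Pool.Agent.Work.MP_936a99_al_h7
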