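import Pool.Agent.Work.MP_936a99_al_h7.Gen

/-!
# A transvection from an element of small rank
-/

namespace Pool.Agent.Work.MP_936a99_al_h7

open Matrix

variable {n : ℕ}

section field

variable {K : Type*} [Field K]

theorem rank_fact (a : Matrix (Fin n) (Fin n) K) :
    ∃ P Q : Fin a.rank → (Fin n → K), LinearIndependent K P ∧ LinearIndependent K Q ∧
      a = ∑ j, vecMulVec (P j) (Q j) := by
  set R := LinearMap.range a.mulVecLin with hR
  have hr : Module.finrank K R = a.rank := rfl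
  let b : Module.Basis (Fin a.rank) K R := Module.finBasisOfFinrankEq K R hr
  let col : Fin n → R := fun i => ⟨a *ᵥ (Pi.single i 1), ⟨Pi.single i 1, rfl⟩⟩
  refine ⟨fun j => (b j : Fin n → K), fun j i => b.repr (col i) j, ?_, ?_, ?_⟩
  · have := b.linearIndependent
    exact this.map' R.subtype (Submodule.ker_subtype R)
  · rw [Fintype.linearIndependent_iff]
    intro c hc
    -- the functional `∑ c_j coord_j` vanishes on the range
    let φ : R →ₗ[K] K := ∑ j, c j • b.coord j
    have hφ : ∀ i, φ (col i) = 0 := by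
      intro i
      have := congrFun hc i
      simpa [φ, LinearMap.sum_apply] using this
    have hφ0 : ∀ x : R, φ x = 0 := by
      intro x
      obtain ⟨v, hv⟩ := x.2
      have h1 : x = ∑ i, v i • col i := by
        apply Subtype.ext
        rw [← hv]
        have h2 : v = ∑ i, v i • (Pi.single i (1 : K) : Fin n → K) := by
          funext j
          simp [Finset.sum_apply, Pi.single_apply]
        conv_lhs => rw [h2]
        rw [map_sum]
        simp only [map_smul, Submodule.coe_sum, Submodule.coe_smul]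
        rfl
      rw [h1, map_sum]
      exact Finset.sum_eq_zero fun i _ => by rw [map_smul, hφ i, smul_zero]
    intro j
    have h3 := hφ0 (b j)
    simpa [φ, LinearMap.sum_apply, Finsupp.single_apply] using h3
  · ext k i
    have h1 := congrArg Subtype.val (b.sum_repr (col i))
    have h2 := congrFun h1 k
    have h3 : (col i : Fin n → K) k = a k i := by
      simp only [col]
      rw [Matrix.mulVec_single_one]
      rfl
    rw [← h3, ← h2]
    simp only [Submodule.coe_sum, Submodule.coe_smul, Finset.sum_apply, Pi.smul_apply,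
      smul_eq_mul, Matrix.sum_apply, Matrix.vecMulVec_apply]
    exact Finset.sum_congr rfl fun j _ => mul_comm _ _

theorem rank_fact' (a : Matrix (Fin n) (Fin n) K) {ρ : ℕ} (hρ : a.rank = ρ) :
    ∃ P Q : Fin ρ → (Fin n → K), LinearIndependent K P ∧ LinearIndependent K Q ∧
      a = ∑ j, vecMulVec (P j) (Q j) := by
  subst hρ
  exact rank_fact a

/-- common kernel -/
def kerAll {ρ : ℕ} (Q : Fin ρ → (Fin n → K)) : Submodule K (Fin n → K) where
  carrier := {x | ∀ i, Q i ⬝ᵥ x = 0}
  add_mem' := by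
    intro a b ha hb i
    rw [dotProduct_add, ha i, hb i, add_zero]
  zero_mem' := by intro i; simp
  smul_mem' := by
    intro c x hx i
    rw [dotProduct_smul, hx i, smul_zero]

theorem finrank_kerAll {ρ : ℕ} (Q : Fin ρ → (Fin n → K)) :
    n ≤ Module.finrank K (kerAll Q) + ρ := by
  let φ : (Fin n → K) →ₗ[K] (Fin ρ → K) :=
    { toFun := fun x i => Q i ⬝ᵥ x
      map_add' := fun a b => by funext i; exact dotProduct_add _ _ _
      map_smul' := fun c x => by funext i; exact dotProduct_smul _ _ _ }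
  have h1 : LinearMap.ker φ = kerAll Q := by
    ext x
    rw [LinearMap.mem_ker]
    exact funext_iff
  have h2 := LinearMap.finrank_range_add_finrank_ker φ
  rw [h1, Module.finrank_fin_fun] at h2
  have h3 : Module.finrank K (LinearMap.range φ) ≤ ρ := by
    have := Submodule.finrank_le (LinearMap.range φ)
    rwa [Module.finrank_fin_fun] at this
  omega

/-- a group element in the required position -/
theorem exists_position {ρ : ℕ} (hn : 3 * ρ + 1 ≤ n) (hρ : 1 ≤ ρ) (P Q : Fin ρ → (Fin n → K))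
    (hP : LinearIndependent K P) (hQ : LinearIndependent K Q) (j0 : Fin ρ) :
    ∃ h : SLn n K, (∀ i j, Q i ⬝ᵥ vv (P j) h = 0) ∧
      ∀ i j, kk (Q i) h ⬝ᵥ P j = if i = j0 ∧ j = j0 then 1 else 0 := by
  classical
  -- the dual vector
  obtain ⟨q, hq1, hq2⟩ : ∃ q : Fin n → K, Q j0 ⬝ᵥ q = 1 ∧ ∀ i, i ≠ j0 → Q i ⬝ᵥ q = 0 := by
    have h1 : Q j0 ∉ Submodule.span K (Q '' {i | i ≠ j0}) :=
      hQ.notMem_span_image (by simp)
    obtain ⟨q, hq1, hq2⟩ := exists_sep h1
    refine ⟨q, by rw [dotProduct_comm]; exact hq1, fun i hi => ?_⟩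
    rw [dotProduct_comm]
    exact hq2 _ (Submodule.subset_span ⟨i, hi, rfl⟩)
  set U : Submodule K (Fin n → K) := Submodule.span K (Set.range P) ⊔ Submodule.span K {q} with hU
  have hUr : Module.finrank K U ≤ ρ + 1 := by
    refine (Submodule.finrank_add_le_finrank_add_finrank _ _).trans ?_
    have h1 := finrank_range_le_card (R := K) P
    rw [Set.finrank, Fintype.card_fin] at h1
    exact Nat.add_le_add h1 (finrank_span_single_le q)
  have hW := finrank_kerAll Q
  obtain ⟨B, hB1, hB2⟩ := exists_indep_mod (kerAll Q) U ρ (by omega)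
  have hPU : ∀ j, P j ∈ U := fun j =>
    Submodule.mem_sup_left (Submodule.subset_span (Set.mem_range_self j))
  have hqU : q ∈ U := Submodule.mem_sup_right (Submodule.mem_span_singleton_self q)
  let x : Fin ρ ⊕ Fin ρ → (Fin n → K) :=
    Sum.elim (fun j => B j + (if j = j0 then (1 : K) else 0) • q) P
  let y : Fin ρ ⊕ Fin ρ → (Fin n → K) := Sum.elim P B
  have hx : LinearIndependent K x := by
    rw [Fintype.linearIndependent_iff]
    intro c hc
    rw [Fintype.sum_sum_type] at hc
    simp only [x, Sum.elim_inl, Sum.elim_inr, smul_add, Finset.sum_add_distrib] at hc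
    have h1 : (fun j => c (Sum.inl j)) = 0 := by
      apply hB2
      have h2 : ∑ j, c (Sum.inl j) • B j
          = -(∑ j, c (Sum.inl j) • (if j = j0 then (1 : K) else 0) • q
            + ∑ j, c (Sum.inr j) • P j) := by
        rw [add_assoc] at hc
        exact eq_neg_of_add_eq_zero_left hc
      rw [h2]
      refine U.neg_mem (U.add_mem (U.sum_mem fun j _ => ?_) (U.sum_mem fun j _ => ?_))
      · exact U.smul_mem _ (U.smul_mem _ hqU)
      · exact U.smul_mem _ (hPU j)
    have h1' : ∀ j, c (Sum.inl j) = 0 := fun j => congrFun h1 j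
    simp only [h1', zero_smul, Finset.sum_const_zero, zero_add] at hc
    have h3 := Fintype.linearIndependent_iff.1 hP _ hc
    rintro (j | j)
    · exact h1' j
    · exact h3 j
  have hy : LinearIndependent K y := by
    rw [Fintype.linearIndependent_iff]
    intro c hc
    rw [Fintype.sum_sum_type] at hc
    simp only [y, Sum.elim_inl, Sum.elim_inr] at hc
    have h1 : (fun j => c (Sum.inr j)) = 0 := by
      apply hB2
      have h2 : ∑ j, c (Sum.inr j) • B j = -(∑ j, c (Sum.inl j) • P j) := by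
        rw [add_comm] at hc
        exact eq_neg_of_add_eq_zero_left hc
      rw [h2]
      exact U.neg_mem (U.sum_mem fun j _ => U.smul_mem _ (hPU j))
    have h1' : ∀ j, c (Sum.inr j) = 0 := fun j => congrFun h1 j
    simp only [h1', zero_smul, Finset.sum_const_zero, add_zero] at hc
    have h3 := Fintype.linearIndependent_iff.1 hP _ hc
    rintro (j | j)
    · exact h3 j
    · exact h1' j
  obtain ⟨h, hh⟩ := exists_SL_map (by simp; omega) x y hx hy
  refine ⟨h, fun i j => ?_, fun i j => ?_⟩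
  · have h1 : vv (P j) h = B j := hh (Sum.inr j)
    rw [h1]
    exact hB1 j i
  · have h1 : vv (B j + (if j = j0 then (1 : K) else 0) • q) h = P j := hh (Sum.inl j)
    rw [kk_dot h1, dotProduct_add, dotProduct_smul, hB1 j i, zero_add, smul_eq_mul]
    by_cases hi : i = j0
    · rw [hi, hq1, mul_one]
      by_cases hj : j = j0
      · simp [hj]
      · simp [hj]
    · rw [hq2 i hi, mul_zero]
      simp [hi]

/-- the commutator computation -/
theorem commutator_transvection {A : Set (SLn n K)} {ℓ S : ℕ} {g h : SLn n K}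
    (hg : Reach A ℓ g) (hh : Reach A S h) {ρ : ℕ} {P Q : Fin ρ → (Fin n → K)}
    (hP : LinearIndependent K P) (hQ : LinearIndependent K Q)
    (hgP : (g : Matrix (Fin n) (Fin n) K) - 1 = ∑ j, vecMulVec (P j) (Q j)) (j0 : Fin ρ)
    (h1 : ∀ i j, Q i ⬝ᵥ vv (P j) h = 0)
    (h2 : ∀ i j, kk (Q i) h ⬝ᵥ P j = if i = j0 ∧ j = j0 then 1 else 0) :
    ∃ u f : Fin n → K, u ≠ 0 ∧ f ≠ 0 ∧ f ⬝ᵥ u = 0 ∧ TRe A (4 * S + 4 * ℓ) u f := by
  classical
  set a : Matrix (Fin n) (Fin n) K := (g : Matrix (Fin n) (Fin n) K) - 1 with ha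
  set g' : SLn n K := h * g * h⁻¹ with hg'
  set a' : Matrix (Fin n) (Fin n) K := ∑ j, vecMulVec (vv (P j) h) (kk (Q j) h) with ha'
  have eg : (g : Matrix (Fin n) (Fin n) K) = 1 + a := by rw [ha]; abel
  have eg' : (g' : Matrix (Fin n) (Fin n) K) = 1 + a' := by
    rw [hg', Matrix.SpecialLinearGroup.coe_mul, Matrix.SpecialLinearGroup.coe_mul, eg,
      Matrix.mul_add, Matrix.add_mul, Matrix.mul_one, coe_mul_inv, hgP, ha', Matrix.mul_sum,
      Matrix.sum_mul]
    congr 1
    refine Finset.sum_congr rfl fun j _ => ?_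
    rw [Matrix.mul_vecMulVec, Matrix.vecMulVec_mul]
    rfl
  have haa' : a * a' = 0 := by
    rw [hgP, ha', Matrix.sum_mul]
    refine Finset.sum_eq_zero fun i _ => ?_
    rw [Matrix.mul_sum]
    refine Finset.sum_eq_zero fun j _ => ?_
    rw [Matrix.vecMulVec_mul_vecMulVec, h1 i j, zero_smul, Matrix.vecMulVec_zero]
  have ha'a : a' * a = vecMulVec (vv (P j0) h) (Q j0) := by
    rw [hgP, ha', Matrix.sum_mul, Finset.sum_eq_single j0]
    · rw [Matrix.mul_sum, Finset.sum_eq_single j0]
      · rw [Matrix.vecMulVec_mul_vecMulVec, h2 j0 j0]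
        simp
      · intro j _ hj
        rw [Matrix.vecMulVec_mul_vecMulVec, h2 j0 j]
        simp [hj]
      · simp
    · intro i _ hi
      rw [Matrix.mul_sum]
      refine Finset.sum_eq_zero fun j _ => ?_
      rw [Matrix.vecMulVec_mul_vecMulVec, h2 i j]
      simp [hi]
    · simp
  set u : Fin n → K := vv (P j0) h with hu
  set f : Fin n → K := Q j0 ᵥ* ((g⁻¹ : SLn n K) : Matrix (Fin n) (Fin n) K) with hf
  -- `a * g'⁻¹ = a`
  have e1 : a * ((g'⁻¹ : SLn n K) : Matrix (Fin n) (Fin n) K) = a := by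
    have h3 : a * (g' : Matrix (Fin n) (Fin n) K) = a := by
      rw [eg', Matrix.mul_add, Matrix.mul_one, haa', add_zero]
    conv_lhs => rw [← h3]
    rw [Matrix.mul_assoc, coe_mul_inv, Matrix.mul_one]
  -- `g u = u`
  have e2 : (g : Matrix (Fin n) (Fin n) K) *ᵥ u = u := by
    rw [eg, Matrix.add_mulVec, Matrix.one_mulVec, hgP, Matrix.sum_mulVec]
    have : ∑ j, vecMulVec (P j) (Q j) *ᵥ u = 0 := by
      refine Finset.sum_eq_zero fun j _ => ?_
      rw [Matrix.vecMulVec_mulVec, hu, h1 j j0]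
      simp
    rw [this, add_zero]
  refine ⟨u, f, vv_ne_zero (hP.ne_zero j0) h, ?_, ?_, ?_⟩
  · have := kk_ne_zero (hQ.ne_zero j0) g
    exact this
  · rw [hf, ← Matrix.dotProduct_mulVec, inv_mulVec_eq e2]
    exact h1 j0 j0
  · refine ⟨g' * g * g'⁻¹ * g⁻¹, ?_, ?_⟩
    · have r1 : Reach A (S + ℓ + S) g' := (hh.mul hg).mul hh.inv
      exact (((r1.mul hg).mul r1.inv).mul hg.inv).mono (by omega)
    · have h4 : (g' : Matrix (Fin n) (Fin n) K) * (g : Matrix (Fin n) (Fin n) K)
          = (g : Matrix (Fin n) (Fin n) K) * (g' : Matrix (Fin n) (Fin n) K) + a' * a := by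
        rw [eg, eg']
        have : (1 + a') * (1 + a) = (1 + a) * (1 + a') + a' * a - a * a' := by noncomm_ring
        rw [this, haa', sub_zero]
      simp only [Matrix.SpecialLinearGroup.coe_mul]
      rw [h4, Matrix.add_mul, Matrix.add_mul, Matrix.mul_assoc
        (g : Matrix (Fin n) (Fin n) K) (g' : Matrix (Fin n) (Fin n) K), coe_mul_inv,
        Matrix.mul_one, coe_mul_inv, Matrix.mul_assoc a' a, e1, ha'a, Matrix.vecMulVec_mul]

end field

variable {p : ℕ} [hp : Fact p.Prime]

/-- a short transvection from a short element of rank `ρ` -/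
theorem exists_transvection {A : Set (SLn n (ZMod p))} (hA : Subgroup.closure A = ⊤)
    {g : SLn n (ZMod p)} {ℓ : ℕ} (hg : Reach A ℓ g) {ρ : ℕ}
    (hρ : ((g : Matrix (Fin n) (Fin n) (ZMod p)) - 1).rank = ρ) (hρ1 : 1 ≤ ρ)
    (hn : 3 * ρ + 1 ≤ n) :
    ∃ u f : Fin n → ZMod p, u ≠ 0 ∧ f ≠ 0 ∧ f ⬝ᵥ u = 0 ∧
      TRe A (4 * (2 * n ^ 2 + 1) ^ (2 * ρ ^ 2 * (p - 1)) + 4 * ℓ) u f := by
  classical
  obtain ⟨P, Q, hP, hQ, hPQ⟩ := rank_fact' ((g : Matrix (Fin n) (Fin n) (ZMod p)) - 1) hρ
  let j0 : Fin ρ := ⟨0, hρ1⟩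
  obtain ⟨h0, hh1, hh2⟩ := exists_position hn hρ1 P Q hP hQ j0
  let ψ : (Fin ρ × Fin ρ) ⊕ (Fin ρ × Fin ρ) → (SLn n (ZMod p) → ZMod p) :=
    Sum.elim (fun x h => Q x.1 ⬝ᵥ vv (P x.2) h)
      (fun x h => kk (Q x.1) h ⬝ᵥ P x.2 - if x.1 = j0 ∧ x.2 = j0 then 1 else 0)
  have hψ : ∀ i, ψ i ∈ BS n (ZMod p) := by
    rintro (x | x)
    · exact vv_mem _ _
    · exact Submodule.sub_mem _ (kk_mem _ _) (const_mem_BS _)
  have hψ0 : ∀ i, ψ i h0 = 0 := by
    rintro (x | x)
    · exact hh1 _ _
    · simp only [ψ, Sum.elim_inr]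
      rw [hh2, sub_self]
  obtain ⟨w, hw, hw'⟩ := closed_steer hA ψ hψ hψ0
  have hcard : Fintype.card ((Fin ρ × Fin ρ) ⊕ (Fin ρ × Fin ρ)) = 2 * ρ ^ 2 := by
    simp
    ring
  rw [hcard] at hw
  exact commutator_transvection hg hw hP hQ hPQ j0 (fun i j => hw' (Sum.inl (i, j)))
    (fun i j => sub_eq_zero.1 (hw' (Sum.inr (i, j))))

end Pool.Agent.Work.MP_936a99_al_h7
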