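import Mathlib

/-!
# Words in a generating set and the steering lemma

`Reach A L g` : `g` is a product of at most `L` elements of `A ∪ A⁻¹`.

Steering lemma (polynomial method): if `B` is a finite dimensional space of functions on a finite
group, invariant under left translations, then a function in `B ^ D` which does not vanish
identically does not vanish identically on the words of length `≤ (dim B) ^ D`.
-/

namespace Pool.Agent.Work.MP_936a99_al_h7

open Pointwise

section words

variable {G : Type*} [Group G]

/-- `g` is a product of at most `L` elements of `A` or their inverses. -/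
def Reach (A : Set G) (L : ℕ) (g : G) : Prop :=
  ∃ l : List G, l.length ≤ L ∧ (∀ x ∈ l, x ∈ A ∨ x⁻¹ ∈ A) ∧ l.prod = g

theorem Reach.mono {A : Set G} {L L' : ℕ} {g : G} (h : Reach A L g) (hL : L ≤ L') :
    Reach A L' g := by
  obtain ⟨l, h1, h2, h3⟩ := h
  exact ⟨l, h1.trans hL, h2, h3⟩

theorem reach_one (A : Set G) : Reach A 0 1 := ⟨[], by simp, by simp, by simp⟩

theorem Reach.mul {A : Set G} {L L' : ℕ} {g h : G} (hg : Reach A L g) (hh : Reach A L' h) :
    Reach A (L + L') (g * h) := by
  obtain ⟨l, h1, h2, h3⟩ := hg
  obtain ⟨l', h1', h2', h3'⟩ := hh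
  refine ⟨l ++ l', by simp; omega, ?_, by simp [h3, h3']⟩
  intro x hx
  rcases List.mem_append.1 hx with hx | hx
  · exact h2 x hx
  · exact h2' x hx

theorem Reach.inv {A : Set G} {L : ℕ} {g : G} (hg : Reach A L g) : Reach A L g⁻¹ := by
  obtain ⟨l, h1, h2, h3⟩ := hg
  refine ⟨(l.map (fun x => x⁻¹)).reverse, by simpa using h1, ?_, ?_⟩
  · intro x hx
    simp only [List.mem_reverse, List.mem_map] at hx
    obtain ⟨y, hy, rfl⟩ := hx
    rcases h2 y hy with h | h
    · right; simpa using h
    · left; exact h
  · rw [← h3, List.prod_inv_reverse]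

theorem Reach.pow {A : Set G} {L : ℕ} {g : G} (hg : Reach A L g) (k : ℕ) :
    Reach A (k * L) (g ^ k) := by
  induction k with
  | zero => simpa using reach_one A
  | succ k ih =>
    rw [pow_succ, Nat.succ_mul]
    exact ih.mul hg

theorem reach_of_mem {A : Set G} {a : G} (ha : a ∈ A) : Reach A 1 a :=
  ⟨[a], by simp, by simp [ha], by simp⟩

theorem Reach.listProd {A : Set G} {L : ℕ} (l : List G) (h : ∀ g ∈ l, Reach A L g) :
    Reach A (l.length * L) l.prod := by
  induction l with
  | nil => simpa using reach_one A
  | cons a l ih =>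
    have h1 : Reach A L a := h a (by simp)
    have h2 := ih (fun g hg => h g (by simp [hg]))
    rw [List.prod_cons, List.length_cons, Nat.succ_mul, Nat.add_comm]
    exact h1.mul h2

/-- Every element of a generated group is a word of some length. -/
theorem exists_reach {A : Set G} (hA : Subgroup.closure A = ⊤) (g : G) : ∃ L, Reach A L g := by
  have hg : g ∈ Subgroup.closure A := by rw [hA]; trivial
  induction hg using Subgroup.closure_induction with
  | mem x hx => exact ⟨1, reach_of_mem hx⟩
  | one => exact ⟨0, reach_one A⟩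
  | mul x y _ _ hx hy =>
    obtain ⟨L, hL⟩ := hx
    obtain ⟨L', hL'⟩ := hy
    exact ⟨L + L', hL.mul hL'⟩
  | inv x _ hx =>
    obtain ⟨L, hL⟩ := hx
    exact ⟨L, hL.inv⟩

end words

section steer

variable {G : Type*} [Group G] {K : Type*} [Field K]

/-- Left translation as an algebra homomorphism on functions: `(lt a f) h = f (a * h)`. -/
def lt (K : Type*) [Field K] (a : G) : (G → K) →ₐ[K] (G → K) where
  toFun f := fun h => f (a * h)
  map_one' := rfl
  map_mul' _ _ := rfl
  map_zero' := rfl
  map_add' _ _ := rfl
  commutes' _ := rfl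

@[simp] theorem lt_apply (a : G) (f : G → K) (h : G) : lt K a f h = f (a * h) := rfl

/-- `B` is invariant under all left translations. -/
def LInv (B : Submodule K (G → K)) : Prop := ∀ a : G, ∀ f ∈ B, lt K a f ∈ B

theorem LInv.pow {B : Submodule K (G → K)} (hB : LInv B) (D : ℕ) : LInv (B ^ D) := by
  intro a f hf
  have h1 : B.map (lt K a).toLinearMap ≤ B := by
    rw [Submodule.map_le_iff_le_comap]
    intro g hg
    exact hB a g hg
  have h2 : (B ^ D).map (lt K a).toLinearMap ≤ B ^ D := by
    rw [Submodule.map_pow]
    exact pow_le_pow_left' h1 D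
  exact h2 (Submodule.mem_map_of_mem hf)

/-- Functions of `F` vanishing on all words of length at most `j`. -/
def van (A : Set G) (F : Submodule K (G → K)) (j : ℕ) : Submodule K (G → K) where
  carrier := {f | f ∈ F ∧ ∀ w, Reach A j w → f w = 0}
  add_mem' := by
    rintro a b ⟨h1, h2⟩ ⟨h3, h4⟩
    refine ⟨F.add_mem h1 h3, fun w hw => ?_⟩
    simp [h2 w hw, h4 w hw]
  zero_mem' := ⟨F.zero_mem, fun _ _ => rfl⟩
  smul_mem' := by
    rintro c a ⟨h1, h2⟩
    refine ⟨F.smul_mem c h1, fun w hw => ?_⟩
    simp [h2 w hw]

theorem mem_van {A : Set G} {F : Submodule K (G → K)} {j : ℕ} {f : G → K} :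
    f ∈ van A F j ↔ f ∈ F ∧ ∀ w, Reach A j w → f w = 0 := Iff.rfl

theorem van_anti (A : Set G) (F : Submodule K (G → K)) {i j : ℕ} (h : i ≤ j) :
    van A F j ≤ van A F i := by
  rintro f ⟨h1, h2⟩
  exact ⟨h1, fun w hw => h2 w (hw.mono h)⟩

theorem van_le (A : Set G) (F : Submodule K (G → K)) (j : ℕ) : van A F j ≤ F := fun _ h => h.1

/-- If the chain stops at `j`, then every element of `van A F j` vanishes identically. -/
theorem van_eq_bot {A : Set G} (hA : Subgroup.closure A = ⊤) {F : Submodule K (G → K)}
    (hF : LInv F) {j : ℕ} (h : van A F j ≤ van A F (j + 1)) {f : G → K} (hf : f ∈ van A F j) :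
    f = 0 := by
  -- `van A F j` is invariant under translation by the generators
  have h1 : ∀ a : G, (a ∈ A ∨ a⁻¹ ∈ A) → ∀ f ∈ van A F j, lt K a f ∈ van A F j := by
    intro a ha f hf
    refine ⟨hF a f hf.1, fun w hw => ?_⟩
    have h2 : f ∈ van A F (j + 1) := h hf
    rw [lt_apply]
    refine h2.2 _ ?_
    have h3 : Reach A 1 a := ⟨[a], by simp, by simpa using ha, by simp⟩
    have := h3.mul hw
    rwa [Nat.add_comm] at this
  have h2 : ∀ l : List G, (∀ x ∈ l, x ∈ A ∨ x⁻¹ ∈ A) → ∀ f ∈ van A F j, f l.prod = 0 := by
    intro l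
    induction l with
    | nil =>
      intro _ f hf
      exact hf.2 _ ⟨[], by simp, by simp, by simp⟩
    | cons a l ih =>
      intro hl f hf
      have h3 := h1 a (hl a (by simp)) f hf
      have h4 := ih (fun x hx => hl x (by simp [hx])) _ h3
      simpa using h4
  funext g
  obtain ⟨L, l, -, hl, rfl⟩ := exists_reach hA g
  exact h2 l hl f hf

/-- A function of a translation invariant space `F` which is not identically zero is nonzero at
some word of length at most `finrank F`. -/
theorem steer_finrank {A : Set G} (hA : Subgroup.closure A = ⊤) {F : Submodule K (G → K)}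
    [FiniteDimensional K F] (hF : LInv F) {f : G → K} (hf : f ∈ F) {h : G} (hh : f h ≠ 0) :
    ∃ w, Reach A (Module.finrank K F) w ∧ f w ≠ 0 := by
  by_contra hcon
  push Not at hcon
  have hfv : f ∈ van A F (Module.finrank K F) := ⟨hf, hcon⟩
  have hfd : ∀ j, FiniteDimensional K (van A F j) := fun j =>
    Submodule.finiteDimensional_of_le (van_le A F j)
  -- strict decrease
  have key : ∀ j ≤ Module.finrank K F, Module.finrank K (van A F j) + j ≤ Module.finrank K F := by
    intro j
    induction j with
    | zero =>
      intro _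
      simpa using Submodule.finrank_mono (van_le A F 0)
    | succ j ih =>
      intro hj
      have h1 := ih (by omega)
      have h2 : van A F (j + 1) < van A F j := by
        refine lt_of_le_of_ne (van_anti A F (Nat.le_succ j)) ?_
        intro heq
        have h3 : f ∈ van A F j := van_anti A F (by omega) hfv
        have h4 := van_eq_bot hA hF (le_of_eq heq.symm) h3
        exact hh (by rw [h4]; rfl)
      have h3 := Submodule.finrank_lt_finrank_of_lt h2
      omega
  have h5 := key _ le_rfl
  have h6 : Module.finrank K (van A F (Module.finrank K F)) = 0 := by omega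
  have h7 : van A F (Module.finrank K F) = ⊥ := Submodule.finrank_eq_zero.1 h6
  rw [h7, Submodule.mem_bot] at hfv
  exact hh (by rw [hfv]; rfl)

/-- **Steering lemma.** `B` is spanned by a finite set `s` of functions and is invariant under left
translations; a function in `B ^ D` which is not identically zero is nonzero at some word of length
at most `(card s) ^ D`. -/
theorem steer {A : Set G} (hA : Subgroup.closure A = ⊤) [DecidableEq (G → K)]
    {s : Finset (G → K)} (hs : LInv (Submodule.span K (s : Set (G → K)))) {D : ℕ}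
    {f : G → K} (hf : f ∈ (Submodule.span K (s : Set (G → K))) ^ D) {h : G} (hh : f h ≠ 0) :
    ∃ w, Reach A (s.card ^ D) w ∧ f w ≠ 0 := by
  have h1 : (Submodule.span K (s : Set (G → K))) ^ D
      = Submodule.span K ((s ^ D : Finset (G → K)) : Set (G → K)) := by
    rw [Submodule.span_pow, Finset.coe_pow]
  have h2 : LInv (Submodule.span K ((s ^ D : Finset (G → K)) : Set (G → K))) := by
    rw [← h1]; exact hs.pow D
  rw [h1] at hf
  obtain ⟨w, hw, hw'⟩ := steer_finrank hA h2 hf hh
  refine ⟨w, hw.mono ?_, hw'⟩
  exact (finrank_span_finset_le_card _).trans Finset.card_pow_le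

end steer

end Pool.Agent.Work.MP_936a99_al_h7
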