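import Pool.Agent.Work.MP_936a99_al_h7.Lin

/-!
# Calculus of transvections `1 + u ⊗ f` reachable by short words
-/

namespace Pool.Agent.Work.MP_936a99_al_h7

open Matrix

variable {n : ℕ} {K : Type*} [Field K]

/-- the transvection `1 + u ⊗ f` is a word of length at most `L` -/
def TRe (A : Set (SLn n K)) (L : ℕ) (u f : Fin n → K) : Prop :=
  ∃ g : SLn n K, Reach A L g ∧ (g : Matrix (Fin n) (Fin n) K) = 1 + vecMulVec u f

theorem TRe.mono {A : Set (SLn n K)} {L L' : ℕ} {u f : Fin n → K} (h : TRe A L u f)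
    (hL : L ≤ L') : TRe A L' u f := by
  obtain ⟨g, h1, h2⟩ := h
  exact ⟨g, h1.mono hL, h2⟩

theorem tre_zero_right (A : Set (SLn n K)) (u : Fin n → K) : TRe A 0 u 0 :=
  ⟨1, reach_one A, by simp⟩

theorem tre_zero_left (A : Set (SLn n K)) (f : Fin n → K) : TRe A 0 0 f :=
  ⟨1, reach_one A, by simp⟩

theorem coe_mul_inv (h : SLn n K) :
    (h : Matrix (Fin n) (Fin n) K) * ((h⁻¹ : SLn n K) : Matrix (Fin n) (Fin n) K) = 1 := by
  rw [← Matrix.SpecialLinearGroup.coe_mul, mul_inv_cancel, Matrix.SpecialLinearGroup.coe_one]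

theorem coe_inv_mul (h : SLn n K) :
    ((h⁻¹ : SLn n K) : Matrix (Fin n) (Fin n) K) * (h : Matrix (Fin n) (Fin n) K) = 1 := by
  rw [← Matrix.SpecialLinearGroup.coe_mul, inv_mul_cancel, Matrix.SpecialLinearGroup.coe_one]

theorem inv_mulVec_eq {h : SLn n K} {x y : Fin n → K}
    (hxy : (h : Matrix (Fin n) (Fin n) K) *ᵥ x = y) :
    ((h⁻¹ : SLn n K) : Matrix (Fin n) (Fin n) K) *ᵥ y = x := by
  rw [← hxy, Matrix.mulVec_mulVec, coe_inv_mul, Matrix.one_mulVec]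

theorem TRe.conj {A : Set (SLn n K)} {L S : ℕ} {u f : Fin n → K} (ht : TRe A L u f)
    {h : SLn n K} (hh : Reach A S h) :
    TRe A (2 * S + L) ((h : Matrix (Fin n) (Fin n) K) *ᵥ u)
      (f ᵥ* ((h⁻¹ : SLn n K) : Matrix (Fin n) (Fin n) K)) := by
  obtain ⟨g, h1, h2⟩ := ht
  refine ⟨h * g * h⁻¹, ((hh.mul h1).mul hh.inv).mono (by omega), ?_⟩
  rw [Matrix.SpecialLinearGroup.coe_mul, Matrix.SpecialLinearGroup.coe_mul, h2, Matrix.mul_add,
    Matrix.add_mul, Matrix.mul_one, coe_mul_inv, Matrix.mul_vecMulVec, Matrix.vecMulVec_mul]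

theorem inv_coe_of_sq_zero {g : SLn n K} {a : Matrix (Fin n) (Fin n) K}
    (hg : (g : Matrix (Fin n) (Fin n) K) = 1 + a) (ha : a * a = 0) :
    ((g⁻¹ : SLn n K) : Matrix (Fin n) (Fin n) K) = 1 - a := by
  have h1 : (g : Matrix (Fin n) (Fin n) K) * (1 - a) = 1 := by
    rw [hg, Matrix.mul_sub, Matrix.mul_one, Matrix.add_mul, Matrix.one_mul, ha]
    simp
  calc ((g⁻¹ : SLn n K) : Matrix (Fin n) (Fin n) K)
      = ((g⁻¹ : SLn n K) : Matrix (Fin n) (Fin n) K) * ((g : Matrix (Fin n) (Fin n) K) * (1 - a)) := by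
        rw [h1, Matrix.mul_one]
    _ = 1 - a := by rw [← Matrix.mul_assoc, coe_inv_mul, Matrix.one_mul]

theorem vmv_sq {u f : Fin n → K} (h : f ⬝ᵥ u = 0) : vecMulVec u f * vecMulVec u f = 0 := by
  rw [Matrix.vecMulVec_mul_vecMulVec, h, zero_smul, Matrix.vecMulVec_zero]

theorem TRe.inv {A : Set (SLn n K)} {L : ℕ} {u f : Fin n → K} (ht : TRe A L u f)
    (hu : f ⬝ᵥ u = 0) : TRe A L u (-f) := by
  obtain ⟨g, h1, h2⟩ := ht
  refine ⟨g⁻¹, h1.inv, ?_⟩
  rw [inv_coe_of_sq_zero h2 (vmv_sq hu), Matrix.vecMulVec_neg, sub_eq_add_neg]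

/-- commutator of two half-commuting transvections -/
theorem TRe.comm {A : Set (SLn n K)} {L L' : ℕ} {u f v k : Fin n → K} (ht : TRe A L u f)
    (ht' : TRe A L' v k) (h1 : f ⬝ᵥ u = 0) (h2 : k ⬝ᵥ v = 0) (h3 : k ⬝ᵥ u = 0) :
    TRe A (2 * L + 2 * L') u ((f ⬝ᵥ v) • k) := by
  obtain ⟨g, hg1, hg2⟩ := ht
  obtain ⟨g', hg1', hg2'⟩ := ht'
  refine ⟨g * g' * g⁻¹ * g'⁻¹, (((hg1.mul hg1').mul hg1.inv).mul hg1'.inv).mono (by omega), ?_⟩
  set a := vecMulVec u f with ha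
  set b := vecMulVec v k with hb
  have haa : a * a = 0 := vmv_sq h1
  have hbb : b * b = 0 := vmv_sq h2
  have hba : b * a = 0 := by
    rw [ha, hb, Matrix.vecMulVec_mul_vecMulVec, h3, zero_smul, Matrix.vecMulVec_zero]
  have hab : a * b = vecMulVec u ((f ⬝ᵥ v) • k) := by
    rw [ha, hb, Matrix.vecMulVec_mul_vecMulVec]
  rw [← hab]
  simp only [Matrix.SpecialLinearGroup.coe_mul]
  rw [inv_coe_of_sq_zero hg2 haa, inv_coe_of_sq_zero hg2' hbb, hg2, hg2']
  have e1 : (1 + a) * (1 + b) * (1 - a) * (1 - b)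
      = 1 + a * b - (a * a) - (b * b) + (a * a) * b - a * (b * b) - (b * a) - a * (b * a)
        + (b * a) * b + a * (b * a) * b := by noncomm_ring
  rw [e1, haa, hbb, hba]
  simp

theorem TRe.add_right {A : Set (SLn n K)} {L L' : ℕ} {u f f' : Fin n → K} (ht : TRe A L u f)
    (ht' : TRe A L' u f') (h1 : f ⬝ᵥ u = 0) : TRe A (L + L') u (f + f') := by
  obtain ⟨g, hg1, hg2⟩ := ht
  obtain ⟨g', hg1', hg2'⟩ := ht'
  refine ⟨g * g', hg1.mul hg1', ?_⟩
  rw [Matrix.SpecialLinearGroup.coe_mul, hg2, hg2', Matrix.add_mul, Matrix.one_mul, Matrix.mul_add,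
    Matrix.mul_one, Matrix.vecMulVec_mul_vecMulVec, h1, zero_smul, Matrix.vecMulVec_zero, add_zero,
    Matrix.vecMulVec_add]
  abel

theorem TRe.add_left {A : Set (SLn n K)} {L L' : ℕ} {u u' f : Fin n → K} (ht : TRe A L u f)
    (ht' : TRe A L' u' f) (h1 : f ⬝ᵥ u' = 0) : TRe A (L + L') (u + u') f := by
  obtain ⟨g, hg1, hg2⟩ := ht
  obtain ⟨g', hg1', hg2'⟩ := ht'
  refine ⟨g * g', hg1.mul hg1', ?_⟩
  rw [Matrix.SpecialLinearGroup.coe_mul, hg2, hg2', Matrix.add_mul, Matrix.one_mul, Matrix.mul_add,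
    Matrix.mul_one, Matrix.vecMulVec_mul_vecMulVec, h1, zero_smul, Matrix.vecMulVec_zero, add_zero,
    Matrix.add_vecMulVec]
  abel

theorem tre_smul_comm {A : Set (SLn n K)} {L : ℕ} {u f : Fin n → K} (c : K) :
    TRe A L (c • u) f ↔ TRe A L u (c • f) := by
  unfold TRe
  rw [Matrix.smul_vecMulVec, Matrix.vecMulVec_smul]

theorem TRe.nsmul {A : Set (SLn n K)} {L : ℕ} {u f : Fin n → K} (ht : TRe A L u f)
    (h1 : f ⬝ᵥ u = 0) (k : ℕ) : TRe A (k * L) u (k • f) := by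
  induction k with
  | zero => simpa using tre_zero_right A u
  | succ k ih =>
    rw [Nat.succ_mul, succ_nsmul]
    refine ih.add_right ht ?_
    rw [smul_dotProduct, h1, smul_zero]

theorem TRe.sum_right {A : Set (SLn n K)} {L : ℕ} {u : Fin n → K} {κ : Type*} (s : Finset κ)
    (F : κ → (Fin n → K)) (h : ∀ j ∈ s, TRe A L u (F j)) (h0 : ∀ j ∈ s, F j ⬝ᵥ u = 0) :
    TRe A (s.card * L) u (∑ j ∈ s, F j) := by
  classical
  induction s using Finset.induction_on with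
  | empty => simpa using tre_zero_right A u
  | insert a s ha ih =>
    rw [Finset.sum_insert ha, Finset.card_insert_of_notMem ha, Nat.succ_mul, Nat.add_comm]
    exact (h a (by simp)).add_right
      (ih (fun j hj => h j (by simp [hj])) (fun j hj => h0 j (by simp [hj]))) (h0 a (by simp))

theorem TRe.sum_left {A : Set (SLn n K)} {L : ℕ} {f : Fin n → K} {κ : Type*} (s : Finset κ)
    (U : κ → (Fin n → K)) (h : ∀ j ∈ s, TRe A L (U j) f) (h0 : ∀ j ∈ s, f ⬝ᵥ U j = 0) :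
    TRe A (s.card * L) (∑ j ∈ s, U j) f := by
  classical
  induction s using Finset.induction_on with
  | empty => simpa using tre_zero_left A f
  | insert a s ha ih =>
    rw [Finset.sum_insert ha, Finset.card_insert_of_notMem ha, Nat.succ_mul, Nat.add_comm]
    refine (h a (by simp)).add_left
      (ih (fun j hj => h j (by simp [hj])) (fun j hj => h0 j (by simp [hj]))) ?_
    rw [dotProduct_sum]
    exact Finset.sum_eq_zero fun j hj => h0 j (by simp [hj])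

/-- over the prime field, all scalar multiples -/
theorem TRe.smul {p : ℕ} [Fact p.Prime] {A : Set (SLn n (ZMod p))} {L : ℕ}
    {u f : Fin n → ZMod p} (ht : TRe A L u f) (h1 : f ⬝ᵥ u = 0) (c : ZMod p) :
    TRe A (p * L) u (c • f) := by
  have h2 := ht.nsmul h1 c.val
  have h3 : c.val • f = c • f := by
    funext i
    simp only [Pi.smul_apply, nsmul_eq_mul, smul_eq_mul, ZMod.natCast_val, ZMod.cast_id']
    rfl
  rw [h3] at h2
  exact h2.mono (Nat.mul_le_mul_right _ (ZMod.val_lt c).le)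

end Pool.Agent.Work.MP_936a99_al_h7
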